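import Pool.Agent.Lib.MP_02acd8_ag.ProjField

open AlgebraicGeometry CategoryTheory HomogeneousLocalization

set_option linter.unusedSectionVars false

noncomputable section

namespace Pool.Agent.Lib.MP_02acd8_ag

section Affine

variable {B K : Type} [CommRing B] [Field K] (β : B →+* K)

/-- Membership in the localization at a prime, inside `K`. -/
def InLoc (p : PrimeSpectrum B) (k : K) : Prop := ∃ a b : B, b ∉ p.asIdeal ∧ k * β b = β a

lemma pow_mul_mem_range (k : K) (b : B) (H : ∀ p : PrimeSpectrum B, b ∉ p.asIdeal → InLoc β p k) :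
    ∃ N : ℕ, β b ^ N * k ∈ β.range := by
  let J : Ideal B :=
    { carrier := {q | β q * k ∈ β.range}
      add_mem' := fun {a b} ha hb => by
        simp only [Set.mem_ofPred_eq, map_add, add_mul] at *
        exact add_mem ha hb
      zero_mem' := ⟨0, by simp⟩
      smul_mem' := fun c a ha => by
        simp only [Set.mem_ofPred_eq, smul_eq_mul, map_mul, mul_assoc] at *
        exact mul_mem ⟨c, rfl⟩ ha }
  have : b ∈ J.radical := by
    rw [Ideal.radical_eq_sInf, Ideal.mem_sInf]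
    rintro P ⟨hJ, hP⟩
    by_contra hb
    obtain ⟨a, c, hc, e⟩ := H ⟨P, hP⟩ hb
    exact hc (hJ ⟨a, by rw [← e, mul_comm]⟩)
  obtain ⟨N, hN⟩ := this
  exact ⟨N, by rw [← map_pow]; exact hN⟩

lemma mem_range_of_inLoc (k : K) (H : ∀ p : PrimeSpectrum B, InLoc β p k) : k ∈ β.range := by
  obtain ⟨N, hN⟩ := pow_mul_mem_range β k 1 fun p _ => H p
  simpa using hN

lemma InLoc.add {p : PrimeSpectrum B} {k k' : K} (h : InLoc β p k) (h' : InLoc β p k') :
    InLoc β p (k + k') := by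
  obtain ⟨a, b, hb, e⟩ := h
  obtain ⟨a', b', hb', e'⟩ := h'
  refine ⟨a * b' + a' * b, b * b', fun H => (p.2.mem_or_mem H).elim hb hb', ?_⟩
  rw [map_add, map_mul, map_mul, map_mul, ← e, ← e']
  ring

lemma InLoc.mul_left {p : PrimeSpectrum B} {k : K} (h : InLoc β p k) (c : B) :
    InLoc β p (β c * k) := by
  obtain ⟨a, b, hb, e⟩ := h
  exact ⟨c * a, b, hb, by rw [map_mul, ← e, mul_assoc]⟩

lemma inLoc_zero (p : PrimeSpectrum B) : InLoc β p 0 :=
  ⟨0, 1, fun H => p.2.ne_top ((Ideal.eq_top_iff_one _).2 H), by simp⟩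

/-- Vanishing of the first cohomology of the structure sheaf of an affine integral scheme. -/
lemma serre_lift (q : PrimeSpectrum B → K)
    (H : ∀ p : PrimeSpectrum B, ∃ U, IsOpen U ∧ p ∈ U ∧ ∃ η, ∀ p' ∈ U, InLoc β p' (q p' - η)) :
    ∃ η, ∀ p, InLoc β p (q p - η) := by
  classical
  let S : Set B := {b | ∃ η, ∀ p : PrimeSpectrum B, b ∉ p.asIdeal → InLoc β p (q p - η)}
  have hS : Ideal.span S = ⊤ := by
    by_contra hne
    obtain ⟨m, hm, hle⟩ := Ideal.exists_le_maximal _ hne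
    obtain ⟨U, hU, hp, η, hη⟩ := H ⟨m, hm.isPrime⟩
    obtain ⟨_, ⟨b, rfl⟩, hb, hbU⟩ :=
      PrimeSpectrum.isTopologicalBasis_basic_opens.exists_subset_of_mem_open hp hU
    exact hb (hle (Ideal.subset_span ⟨η, fun p hp => hη p (hbU hp)⟩))
  obtain ⟨T, hTS, hT⟩ := (Ideal.span_eq_top_iff_finite S).1 hS
  have hc : ∀ b : T, ∃ η, ∀ p : PrimeSpectrum B, (b : B) ∉ p.asIdeal → InLoc β p (q p - η) :=
    fun b => hTS b.2
  choose η hη using hc
  have hN : ∀ ij : T × T, ∃ N : ℕ, β (ij.1 * ij.2) ^ N * (η ij.1 - η ij.2) ∈ β.range := by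
    intro ij
    apply pow_mul_mem_range
    intro p hp
    have h1 := hη ij.1 p fun H => hp (Ideal.mul_mem_right _ _ H)
    have h2 := hη ij.2 p fun H => hp (Ideal.mul_mem_left _ _ H)
    have := h2.add β (h1.mul_left β (-1))
    have e : q p - η ij.2 + β (-1) * (q p - η ij.1) = η ij.1 - η ij.2 := by simp
    exact e ▸ this
  choose N hN using hN
  let M := Finset.univ.sup N
  have hM : Ideal.span (Set.range fun b : T => (b : B) ^ M) = ⊤ := by
    have := Ideal.span_pow_eq_top (T : Set B) hT M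
    rw [← this]
    congr 1
    ext z
    simp
  obtain ⟨c, hc⟩ := (Submodule.mem_span_range_iff_exists_fun B).1
    (hM ▸ Submodule.mem_top : (1 : B) ∈ Ideal.span _)
  refine ⟨∑ j, β (c j * j ^ M) * η j, fun p => ?_⟩
  obtain ⟨i, hi⟩ : ∃ i : T, (i : B) ∉ p.asIdeal := by
    by_contra hn
    push Not at hn
    exact p.2.ne_top (top_le_iff.1 (hT ▸ Ideal.span_le.2 fun b hb => hn ⟨b, hb⟩))
  have e : q p - ∑ j, β (c j * j ^ M) * η j =
      (q p - η i) + ∑ j, β (c j) * (β j ^ M * (η i - η j)) := by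
    have h1 : ∑ j, β (c j * j ^ M) = 1 := by
      rw [← map_sum]
      simp only [smul_eq_mul] at hc
      rw [hc, map_one]
    have : η i = ∑ j, β (c j * j ^ M) * η i := by rw [← Finset.sum_mul, h1, one_mul]
    simp only [mul_sub, Finset.sum_sub_distrib, ← mul_assoc, ← map_pow, ← map_mul]
    rw [← this]
    ring
  rw [e]
  refine (hη i p hi).add β (Finset.sum_induction _ _ (fun a b ha hb => ha.add β hb)
    (inLoc_zero β p) fun j _ => InLoc.mul_left β ?_ _)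
  obtain ⟨a, ha⟩ := hN (i, j)
  obtain ⟨t, ht⟩ := Nat.exists_eq_add_of_le (Finset.le_sup (f := N) (Finset.mem_univ (i, j)))
  refine ⟨a * j ^ t, i ^ N (i, j), fun H => hi (p.2.mem_of_pow_mem _ H), ?_⟩
  change β j ^ Finset.univ.sup N * _ * _ = _
  rw [ht, map_mul, ha]
  simp only [map_pow, map_mul]
  ring

end Affine

variable {A σ : Type} [CommRing A] [IsDomain A] [SetLike σ A] [AddSubgroupClass σ A]
  {𝒜 : ℕ → σ} [GradedRing 𝒜] [IsIntegral (Proj 𝒜)] {c : ℂ →+* 𝒜 0} {h : A}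
  {φ : A →+* FF (projStr 𝒜 c)}

namespace Dehom

variable (H : Dehom 𝒜 c h φ)
include H

lemma ne_zero {n : ℕ} {t : A} (ht : t ∈ 𝒜 n) (h0 : t ≠ 0) : φ t ≠ 0 := fun e => h0 (H.inj n t ht e)

lemma ne_zero' {x : Proj 𝒜} {n : ℕ} {t : A} (ht : t ∈ 𝒜 n) (hx : t ∉ x.asHomogeneousIdeal) :
    φ t ≠ 0 := H.ne_zero ht fun e => hx (e ▸ zero_mem _)

lemma div_mem {x : Proj 𝒜} {n : ℕ} {r t : A} (hr : r ∈ 𝒜 n) (ht : t ∈ 𝒜 n)
    (hx : t ∉ x.asHomogeneousIdeal) : φ r / φ t ∈ loc (projStr 𝒜 c) x :=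
  (H.loc_iff x _).2 ⟨n, r, hr, t, ht, hx, div_mul_cancel₀ _ (H.ne_zero' ht hx)⟩

lemma unit_iff {x : Proj 𝒜} {n : ℕ} {r t : A} (hr : r ∈ 𝒜 n) (ht : t ∈ 𝒜 n)
    (hx : t ∉ x.asHomogeneousIdeal) :
    (∃ v ∈ loc (projStr 𝒜 c) x, φ r / φ t * v = 1) ↔ r ∉ x.asHomogeneousIdeal := by
  have ht0 := H.ne_zero' ht hx
  constructor
  · rintro ⟨v, hv, e⟩ hrx
    obtain ⟨m, r', hr', t', ht', hx', e'⟩ := (H.loc_iff x _).1 hv
    have : r * r' - t * t' = 0 := by
      refine H.inj (n + m) _ (sub_mem (SetLike.mul_mem_graded hr hr')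
        (SetLike.mul_mem_graded ht ht')) ?_
      rw [map_sub, map_mul, map_mul, ← e']
      field_simp at e
      linear_combination φ t' * e
    have h2 : t * t' ∈ x.asHomogeneousIdeal.toIdeal :=
      (sub_eq_zero.1 this) ▸ Ideal.mul_mem_right _ _ hrx
    exact (x.isPrime.mem_or_mem h2).elim hx hx'
  · intro hrx
    have := H.ne_zero' hr hrx
    exact ⟨_, H.div_mem ht hr hrx, by field_simp⟩

variable {g : A} {d : ℕ} (hg : g ∈ 𝒜 d) (hd : 0 < d) (g0 : g ≠ 0)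

lemma chart_eq (n : ℕ) (r : A) (hr : r ∈ 𝒜 (n • d)) :
    chartF 𝒜 c hg hd g0 (Away.mk 𝒜 hg n r hr) = φ r / φ g ^ n :=
  eq_div_of_mul_eq (pow_ne_zero _ (H.ne_zero hg g0)) (H.chart hg hd g0 n r hr)

lemma chart_injective : Function.Injective (chartF 𝒜 c hg hd g0) := by
  rw [injective_iff_map_eq_zero]
  intro z hz
  obtain ⟨n, r, hr, rfl⟩ := Away.mk_surjective 𝒜 hg z
  have := H.chart hg hd g0 n r hr
  rw [hz, zero_mul] at this
  obtain rfl := H.inj _ r hr this.symm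
  exact mk_eq_zero_of_num _ rfl

lemma mem_range_iff (k : FF (projStr 𝒜 c)) :
    k ∈ (chartF 𝒜 c hg hd g0).range ↔ ∃ n, ∃ r ∈ 𝒜 (n * d), k = φ r / φ g ^ n := by
  constructor
  · rintro ⟨z, rfl⟩
    obtain ⟨n, r, hr, rfl⟩ := Away.mk_surjective 𝒜 hg z
    exact ⟨n, r, hr, H.chart_eq hg hd g0 n r hr⟩
  · rintro ⟨n, r, hr, rfl⟩
    exact ⟨_, H.chart_eq hg hd g0 n r hr⟩

include g0 in
lemma mem_away_iff (p : PrimeSpectrum (Away 𝒜 g)) (n : ℕ) (r : A) (hr : r ∈ 𝒜 (n • d)) :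
    r ∈ (Proj.awayι 𝒜 g hg hd p).asHomogeneousIdeal ↔ Away.mk 𝒜 hg n r hr ∈ p.asIdeal := by
  have hr' : r * g ∈ 𝒜 (n • d + d) := SetLike.mul_mem_graded hr hg
  have key := Proj.awayι_preimage_basicOpen 𝒜 hg hd hr' (by omega)
  have e : Away.isLocalizationElem hg hr' = Away.mk 𝒜 hg n r hr ^ d := by
    apply H.chart_injective hg hd g0
    have := H.ne_zero hg g0
    rw [map_pow, H.chart_eq, H.chart_eq, smul_eq_mul, map_pow, map_mul, div_pow, ← pow_mul]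
    field_simp
    ring
  have h1 : Proj.awayι 𝒜 g hg hd p ∈ Proj.basicOpen 𝒜 (r * g) ↔
      Away.isLocalizationElem hg hr' ∉ p.asIdeal := by
    change p ∈ Proj.awayι 𝒜 g hg hd ⁻¹ᵁ Proj.basicOpen 𝒜 (r * g) ↔ _
    rw [key]
    rfl
  have h2 : Proj.awayι 𝒜 g hg hd p ∈ Proj.basicOpen 𝒜 g := by
    rw [← Proj.opensRange_awayι 𝒜 g hg hd]
    exact ⟨p, rfl⟩
  rw [e, p.2.pow_mem_iff_mem _ hd, Proj.basicOpen_mul] at h1
  rw [← not_iff_not, ← h1]
  exact ⟨fun H => ⟨H, h2⟩, fun H => H.1⟩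

lemma loc_away_iff (p : PrimeSpectrum (Away 𝒜 g)) (k : FF (projStr 𝒜 c)) :
    k ∈ loc (projStr 𝒜 c) (Proj.awayι 𝒜 g hg hd p) ↔ InLoc (chartF 𝒜 c hg hd g0) p k := by
  have hg0 := H.ne_zero hg g0
  have h2 : g ∉ (Proj.awayι 𝒜 g hg hd p).asHomogeneousIdeal := by
    change Proj.awayι 𝒜 g hg hd p ∈ Proj.basicOpen 𝒜 g
    rw [← Proj.opensRange_awayι 𝒜 g hg hd]
    exact ⟨p, rfl⟩
  rw [H.loc_iff]
  constructor
  · rintro ⟨n, r, hr, t, ht, hx, e⟩
    obtain ⟨d', rfl⟩ := Nat.exists_eq_add_of_le' hd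
    have m1 : t ^ (d' + 1) ∈ 𝒜 (n • (d' + 1)) := by
      simpa [mul_comm] using SetLike.pow_mem_graded (d' + 1) ht
    have m2 : r * t ^ d' ∈ 𝒜 (n • (d' + 1)) := by
      have := SetLike.mul_mem_graded hr (SetLike.pow_mem_graded d' ht)
      have e : n + d' • n = n • (d' + 1) := by
        simp only [smul_eq_mul]
        ring
      exact e ▸ this
    refine ⟨Away.mk 𝒜 hg n _ m2, Away.mk 𝒜 hg n _ m1, ?_, ?_⟩
    · rw [← H.mem_away_iff hg hd g0]
      exact fun H' => hx ((Proj.awayι 𝒜 g hg hd p).isPrime.mem_of_pow_mem _ H')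
    · rw [H.chart_eq, H.chart_eq, map_mul, map_pow, map_pow, ← e]
      ring
  · rintro ⟨a, b, hb, e⟩
    obtain ⟨n, r, hr, rfl⟩ := Away.mk_surjective 𝒜 hg a
    obtain ⟨m, t, ht, rfl⟩ := Away.mk_surjective 𝒜 hg b
    rw [← H.mem_away_iff hg hd g0] at hb
    refine ⟨n • d + m • d, r * g ^ m, SetLike.mul_mem_graded hr (SetLike.pow_mem_graded m hg),
      g ^ n * t, SetLike.mul_mem_graded (SetLike.pow_mem_graded n hg) ht, fun H' => ?_, ?_⟩
    · exact ((Proj.awayι 𝒜 g hg hd p).isPrime.mem_or_mem H').elim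
        (fun H' => h2 ((Proj.awayι 𝒜 g hg hd p).isPrime.mem_of_pow_mem _ H')) hb
    · rw [H.chart_eq, H.chart_eq] at e
      rw [map_mul, map_mul, map_pow, map_pow]
      field_simp at e
      linear_combination e

end Dehom

lemma exists_away {g : A} {d : ℕ} (hg : g ∈ 𝒜 d) (hd : 0 < d) {x : Proj 𝒜}
    (hx : g ∉ x.asHomogeneousIdeal) : ∃ p, Proj.awayι 𝒜 g hg hd p = x := by
  have : x ∈ (Proj.awayι 𝒜 g hg hd).opensRange := by
    rw [Proj.opensRange_awayι]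
    exact hx
  exact this

lemma away_notMem {g : A} {d : ℕ} (hg : g ∈ 𝒜 d) (hd : 0 < d) (p) :
    g ∉ (Proj.awayι 𝒜 g hg hd p).asHomogeneousIdeal := by
  change Proj.awayι 𝒜 g hg hd p ∈ Proj.basicOpen 𝒜 g
  rw [← Proj.opensRange_awayι 𝒜 g hg hd]
  exact ⟨p, rfl⟩

end Pool.Agent.Lib.MP_02acd8_ag
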