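import Pool.Agent.Lib.MP_02acd8_ag.Toric

open AlgebraicGeometry CategoryTheory HomogeneousLocalization KaehlerDifferential

set_option linter.unusedSectionVars false

noncomputable section

namespace Pool.Agent.Lib.MP_02acd8_ag

lemma cone_fg : (dualCone mirror).FG := by
  refine (AddSubmonoid.fg_iff _).2 ⟨{p | p ∈ dualCone mirror ∧ p.2 = 1},
    le_antisymm (AddSubmonoid.closure_le.2 fun p hp => hp.1) ?_, ?_⟩
  · rintro ⟨u, k⟩ hu
    induction k generalizing u with
    | zero =>
      rw [mem_cone'] at hu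
      have : u = 0 := by
        ext i
        fin_cases i <;> simp <;> omega
      rw [this]
      exact zero_mem _
    | succ k ih =>
      have key : ∃ a b : ℤ, (![a, b], 1) ∈ dualCone mirror ∧
          (u - ![a, b], k) ∈ dualCone mirror := by
        simp only [mem_cone'] at hu ⊢
        refine ⟨if 0 < u 0 then 1 else if u 0 < 0 then -1 else 0,
          max (-1) (u 0 + u 1 - (if 0 < u 0 then 1 else if u 0 < 0 then -1 else 0) - k), ?_⟩
        simp only [Matrix.cons_val_zero, Matrix.cons_val_one, Pi.sub_apply]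
        split_ifs <;> omega
      obtain ⟨a, b, h1, h2⟩ := key
      have : (u, k + 1) = (u - ![a, b], k) + (![a, b], 1) :=
        Prod.ext (sub_add_cancel _ _).symm rfl
      rw [this]
      exact add_mem (ih _ h2) (AddSubmonoid.subset_closure ⟨h1, rfl⟩)
  · refine ((Set.finite_Icc (![-1, -1] : Fin 2 → ℤ) ![1, 2]).prod
      (Set.finite_singleton 1)).subset ?_
    rintro ⟨u, k⟩ ⟨hu, rfl : k = 1⟩
    rw [mem_cone'] at hu
    refine ⟨⟨fun i => ?_, fun i => ?_⟩, rfl⟩ <;> fin_cases i <;> simp <;> omega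

lemma toric_proper : IsProper (projStr TG (algebraMap ℂ (TG 0))) := by
  have : AddMonoid.FG (dualCone mirror) := (AddMonoid.fg_iff_addSubmonoid_fg _).2 cone_fg
  have : IsScalarTower ℂ (TG 0) TA := 
    IsScalarTower.of_algebraMap_eq (R := ℂ) (S := TG 0) (A := TA) fun _ => rfl
  have : Algebra.FiniteType (TG 0) TA := Algebra.FiniteType.of_restrictScalars_finiteType ℂ _ _
  have : IsClosedImmersion (Spec.map (CommRingCat.ofHom (algebraMap ℂ (TG 0)))) := by
    refine IsClosedImmersion.spec_of_surjective _ ?_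
    rintro ⟨r, hr⟩
    have := graded_induction (P := fun r => ∃ z : ℂ, algebraMap ℂ TA z = r) ⟨0, map_zero _⟩
      (by rintro _ _ ⟨a, rfl⟩ ⟨b, rfl⟩; exact ⟨a + b, map_add _ _ _⟩) (fun u hu z => ⟨z, by
        have : u = 0 := by
          rw [mem_cone'] at hu
          ext i
          fin_cases i <;> simp <;> omega
        subst this
        rw [Algebra.algebraMap_eq_smul_one]
        rfl⟩) r hr
    obtain ⟨z, hz⟩ := this
    exact ⟨z, Subtype.ext hz⟩
  infer_instance

namespace TData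

variable (T : TData)

/-- The coordinates of the chart at a vertex. -/
def co (s : Fin 4) : Fin 2 → TK := ![chi T.lam (m0 s), chi T.lam (m1 s)]

lemma chi_mem_R {v d} (h : (v, d) ∈ dualCone mirror) (hd : 0 < d) {u} (hu : InCone v d u) :
    chi T.lam u ∈ R v d h hd :=
  (T.mem_R h hd _).2 ⟨(1 : ℂ) • mono u, fun u' hu' => coeff_smul_mono hu' ▸ hu, by
    rw [one_smul, chi]⟩

lemma chart (s : Fin 4) :
    SmoothOfRelativeDimension 2 (Proj.awayι TG (gv s) (el_mem _ _ _) one_pos ≫
      projStr TG (algebraMap ℂ (TG 0))) ∧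
      (∃ b : Module.Basis (Fin 2) TK Ω[TK⁄ℂ], ∀ i, b i = D ℂ _ (T.co s i)) ∧
      ∀ x : Proj TG, gv s ∉ x.asHomogeneousIdeal →
        Coord (loc (projStr TG (algebraMap ℂ (TG 0))) x) (T.co s) := by
  have := T.H.chart_spec (el_mem _ _ (vtx_mem s)) one_pos (el_ne_zero _ _ _) (a := T.co s)
    (xy_injective T.lam T.inj) 1 (fun i => by
      fin_cases i
      · exact T.chi_mem_R _ _ ((inCone_vtx s _).2 (by revert s; decide))
      · exact T.chi_mem_R _ _ ((inCone_vtx s _).2 (by revert s; decide)))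
    ⟨1, one_mem _, by simp⟩ (fun b hb => by
      obtain ⟨F, hF, rfl⟩ := (T.mem_R (vtx_mem s) one_pos b).1 hb
      suffices ∃ p, T.lam F = MvPolynomial.aeval (T.co s) p from this.imp fun p hp => ⟨0, by
        simpa using hp⟩
      refine laurent_induction (P := fun F => ∃ p : MvPolynomial (Fin 2) ℂ,
        T.lam F = MvPolynomial.aeval (T.co s) p) ⟨0, by simp⟩ ?_ F fun u hu z => ?_
      · rintro a b ⟨p, hp⟩ ⟨q, hq⟩
        exact ⟨p + q, by rw [map_add, map_add, hp, hq]⟩
      · obtain ⟨h1, h2⟩ := (inCone_vtx s u).1 (hF u (Finsupp.mem_support_iff.1 hu))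
        refine ⟨z • (MvPolynomial.X 0 ^ (rho s u).toNat *
          MvPolynomial.X 1 ^ (rho (s + 1) u).toNat), ?_⟩
        rw [map_smul, map_smul, map_mul, map_pow, map_pow, MvPolynomial.aeval_X,
          MvPolynomial.aeval_X, ← zpow_natCast, ← zpow_natCast, Int.toNat_of_nonneg h1,
          Int.toNat_of_nonneg h2]
        refine congrArg _ ?_
        change chi _ u = chi _ _ ^ _ * chi _ _ ^ _
        rw [← chi_zsmul, ← chi_zsmul, ← chi_add, ← decomp])
  exact ⟨this.1, this.2.2⟩

lemma wedge_co (s : Fin 4) :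
    wedgeD (T.co s) = chi T.lam (-vtx s) • wedge (dlx T.lam) (dly T.lam) := by
  rw [wedgeD_eq, vtx, neg_neg, chi_add]
  change wedge (D ℂ _ (chi _ _)) (D ℂ _ (chi _ _)) = _
  rw [D_chi, D_chi, wedge_comb]
  congr 1
  have : m0 s 0 * m1 s 1 - m0 s 1 * m1 s 0 = 1 := by revert s; decide
  have e : (m0 s 0 : TK) * m1 s 1 - m0 s 1 * m1 s 0 = 1 := by
    simpa using congrArg (Int.cast : ℤ → TK) this
  linear_combination chi T.lam (m0 s) * chi T.lam (m1 s) * e

include T in
lemma fano : IsFano 2 (projStr TG (algebraMap ℂ (TG 0))) := by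
  refine ⟨toric_proper, smooth_of_charts gv (fun _ => 1) (fun _ => el_mem _ _ _)
    (fun _ => one_pos) toric_cover fun s => (T.chart s).1, wedge (dlx T.lam) (dly T.lam),
    fun x => ?_⟩
  obtain ⟨s, hs⟩ := toric_cover x
  refine ⟨1, chi T.lam (vtx s), Proj.basicOpen TG (gv s), one_pos,
    Proj.isAffineOpen_basicOpen TG _ (el_mem _ _ _) one_pos, hs, fun y => ?_⟩
  obtain ⟨t, ht⟩ := toric_cover y
  obtain ⟨-, ⟨b, hb⟩, hc⟩ := T.chart t
  have e : chi T.lam (vtx s) * chi T.lam (-vtx t) ^ 1 = T.φ (gv s) / T.φ (gv t) := by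
    rw [gv, gv, T.φ_el, T.φ_el, pow_one, chi_neg, div_eq_mul_inv]
  refine ⟨chi T.lam (-vtx t), ?_, ?_, ?_⟩
  · rw [← T.wedge_co]
    refine (hc y ht).generates ?_
    rw [wedgeD_eq, ← hb, ← hb]
    exact wedge_ne_zero b
  · rw [e]
    exact T.H.div_mem (el_mem _ _ _) (el_mem _ _ _) ht
  · rw [e]
    exact (T.H.unit_iff (el_mem _ _ _) (el_mem _ _ _) ht).symm

end TData

end Pool.Agent.Lib.MP_02acd8_ag
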