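import Pool.Agent.Lib.MP_02acd8_ag.GW

set_option linter.unusedSimpArgs false

noncomputable section

namespace Pool.Agent.Lib.MP_02acd8_ag

lemma gw_value {I : GWSys} (hR : GWRelations I) (hC : GWCounts I) (k : ℕ) :
    ∀ a b, k + 2 = a + 2 * b → I (a, b) k 3 [] = gval a b := by
  obtain ⟨h1, h2, h3, h4, h5⟩ := hR
  have P : Pre I := ⟨h1, h2, h4, hC⟩
  induction k using Nat.strong_induction_on with
  | _ k ih =>
  intro a b e
  rcases k with _ | k
  · have : (a = 2 ∧ b = 0) ∨ (a = 0 ∧ b = 1) := by omega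
    rcases this with ⟨rfl, rfl⟩ | ⟨rfl, rfl⟩
    · rw [hC.2.2]
      simp [gval]
    · rw [hC.2.1]
      simp [gval]
  have h0 : ((a, b) : ℕ × ℕ) ≠ 0 := by simp [Prod.ext_iff]; omega
  have dd : ∀ D D', cdeg D = 1 → cdeg D' = 1 → dot D (a, b) * dot D' (a, b) *
      I (a, b) (k + 1) 3 [] = trr I (a, b) k D D' := fun D D' hD hD' => by
    rw [← h5 _ _ _ _ hD hD', h4 _ _ _ D _ h0 hD (by simp) (Or.inr rfl),
      h4 _ _ _ D' _ h0 hD' (by simp) (Or.inr rfl), mul_assoc]
  rcases a with _ | a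
  · obtain ⟨b, rfl⟩ : ∃ c, b = c + 2 := ⟨b - 2, by omega⟩
    obtain ⟨k, rfl⟩ : ∃ c, k = c + 1 := ⟨k - 1, by omega⟩
    have e1 := dd 2 2 rfl rfl
    have e2 := dd 1 2 rfl rfl
    rw [P.trr_eq _ _ rfl rfl] at e1 e2
    have e3 := (h3 (0, b + 1) k (by simp [Prod.ext_iff])).1
    rw [ih k (by omega) 0 (b + 1) (by omega)] at e3
    simp [dot, pairing, Prod.ext_iff, e3] at e1 e2
    have e4 := gval_right 0 (b + 1)
    have : (b + 2 : ℚ) ≠ 0 := by positivity
    apply mul_left_cancel₀ (mul_ne_zero this this)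
    push_cast at e4
    linear_combination e1 - e4 + e2
  · have e1 := dd 1 1 rfl rfl
    have h0' : ((a, b) : ℕ × ℕ) ≠ 0 := by simp [Prod.ext_iff]; omega
    rw [P.trr_eq _ _ rfl rfl] at e1
    have e3 := h4 (a, b) k 3 2 [] h0' rfl (by simp) (Or.inr rfl)
    rw [ih k (by omega) a b (by omega)] at e3
    have e5 : ((a + 1, b) : ℕ × ℕ) - (1, 0) = (a, b) := by simp
    rw [e5, e3, if_pos (show ((1, 0) : ℕ × ℕ) ≤ (a + 1, b) ∧ _ from ⟨by simp, h0'⟩)] at e1
    simp [dot, pairing] at e1
    have e4 := gval_left a b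
    have : (a + 1 : ℚ) ≠ 0 := by positivity
    apply mul_left_cancel₀ (mul_ne_zero this this)
    linear_combination e1 - e4

theorem period_eq {I : GWSys} (hR : GWRelations I) (hC : GWCounts I) :
    period mirror = quantumPeriod I := by
  ext d
  rw [period, quantumPeriod, map_add, PowerSeries.coeff_mk, PowerSeries.coeff_mk,
    coeff_mirror_pow, PowerSeries.coeff_one]
  rcases d with _ | _ | d
  · simp [gval]
  · simp [gval]
  · rw [if_neg (by omega), if_neg (by omega), zero_add]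
    congr 2
    refine Finset.sum_congr rfl fun b hb => (gw_value hR hC _ _ _ ?_).symm
    rw [Finset.mem_range] at hb
    omega

/-- One-point invariants with a point class. -/
def gpt (β : ℕ × ℕ) (k : ℕ) : ℚ := if k + 2 = β.1 + 2 * β.2 then gval β.1 β.2 else 0

/-- The invariants of nonzero classes. -/
def gpos (β : ℕ × ℕ) (k : ℕ) (i : Fin 4) : List (Fin 4) → ℚ
  | [] => if i = 3 then gpt β k else if cdeg i = 1 ∧ β = (1, 0) ∧ k = 0 then dot i β else 0
  | D :: l => if cdeg D = 1 then dot D β * gpos β k i l else if l = [] ∧ i = 3 then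
      (if D = 0 then (if k = 0 then 0 else gpt β (k - 1)) else β.1 * β.2 * gpt β (k + 1)) else 0

/-- The invariants of the zero class. -/
def gzero (k : ℕ) (i : Fin 4) : List (Fin 4) → ℚ
  | [j, m] => if k = 0 then triple i j m else 0
  | _ => 0

/-- A system satisfying all the relations. -/
def gmodel : GWSys := fun β k i l => if β = 0 then gzero k i l else gpos β k i l

lemma gpt_dim {β k} (h : gpt β k ≠ 0) : k + 2 = β.1 + 2 * β.2 := by
  by_contra e
  exact h (if_neg e)

lemma gpos_dim (β k i l) (h : gpos β k i l ≠ 0) :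
    k + cdeg i + (l.map cdeg).sum = β.1 + 2 * β.2 + l.length := by
  induction l with
  | nil =>
    rw [gpos] at h
    split_ifs at h with h1 h2
    · subst h1
      simpa [cdeg] using gpt_dim h
    · obtain ⟨h2, rfl, rfl⟩ := h2
      simp [h2]
    · exact absurd rfl h
  | cons D l ih =>
    rw [gpos] at h
    split_ifs at h with h1 h2 h3 h4
    · have := ih (right_ne_zero_of_mul h)
      simp only [List.map_cons, List.sum_cons, List.length_cons, h1]
      omega
    · exact absurd rfl h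
    · obtain ⟨rfl, rfl⟩ := h2
      have := gpt_dim h
      simp [h3, cdeg]
      omega
    · obtain ⟨rfl, rfl⟩ := h2
      have := gpt_dim (right_ne_zero_of_mul h)
      have : D = 3 := by
        fin_cases D <;> simp_all [cdeg]
      simp [this, cdeg]
      omega
    · exact absurd rfl h

lemma pre_gmodel : Pre gmodel := by
  refine ⟨fun β k i l h => ?_, fun i j m => by simp [gmodel, gzero],
    fun β k i D l h0 hD _ _ => by simp [gmodel, h0, gpos, hD], fun D hD => ?_, ?_, ?_⟩
  · rw [gmodel] at h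
    split_ifs at h with h0
    · subst h0
      unfold gzero at h
      split at h
      · split_ifs at h with hk
        · subst hk
          rename_i j m
          revert h
          fin_cases i <;> fin_cases j <;> fin_cases m <;> simp [triple, pairing, cdeg]
        · exact absurd rfl h
      · exact absurd rfl h
    · exact gpos_dim _ _ _ _ h
  · have : D ≠ 3 := by rintro rfl; simp [cdeg] at hD
    simp [gmodel, gpos, this, hD, Prod.ext_iff]
  · simp [gmodel, gpos, gpt, gval, Prod.ext_iff]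
  · simp [gmodel, gpos, gpt, gval, Prod.ext_iff]

lemma gpt_left (a b k : ℕ) : (a + 1 : ℚ) ^ 2 * gpt (a + 1, b) (k + 1) = (b - a) * gpt (a, b) k := by
  unfold gpt
  by_cases h : k + 2 = a + 2 * b
  · rw [if_pos (by simp; omega), if_pos h, gval_left]
  · rw [if_neg (by simp; omega), if_neg h]
    simp

lemma gpt_right (a b k : ℕ) : (b + 1 : ℚ) * (b + 1 - a) * gpt (a, b + 1) (k + 1) =
    if k = 0 then 0 else gpt (a, b) (k - 1) := by
  unfold gpt
  rcases k with _ | k
  · rw [if_pos rfl]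
    split_ifs with h
    · obtain ⟨rfl, rfl⟩ : a = 1 ∧ b = 0 := by simp at h; omega
      simp
    · simp
  rw [if_neg k.succ_ne_zero]
  by_cases h : k + 2 = a + 2 * b
  · rw [if_pos (by simp; omega), if_pos (by simp; omega), gval_right]
  · rw [if_neg (by simp; omega), if_neg (by simp; omega)]
    simp

theorem gw_model : GWRelations gmodel ∧ GWCounts gmodel := by
  refine ⟨⟨pre_gmodel.dim, pre_gmodel.zero, fun β k h0 => by simp [gmodel, h0, gpos, cdeg],
    pre_gmodel.div, fun β k D D' hD hD' => ?_⟩, pre_gmodel.cnt⟩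
  rw [pre_gmodel.trr_eq _ _ hD hD']
  by_cases h0 : β = 0
  · subst h0
    simp [gmodel, gzero, Prod.ext_iff]
  obtain ⟨a, b⟩ := β
  have e1 : (if ((1, 0) : ℕ × ℕ) ≤ (a, b) ∧ ((a, b) : ℕ × ℕ) - (1, 0) ≠ 0 then
      dot D (1, 0) * dot D' (1, 0) * gmodel ((a, b) - (1, 0)) k 3 [2] else 0) =
      dot D (1, 0) * dot D' (1, 0) * (a ^ 2 * gpt (a, b) (k + 1)) := by
    rcases a with _ | a
    · simp
    have e5 : ((a + 1, b) : ℕ × ℕ) - (1, 0) = (a, b) := by simp
    push_cast
    rw [e5, gpt_left]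
    by_cases h : ((a, b) : ℕ × ℕ) = 0
    · obtain ⟨rfl, rfl⟩ : a = 0 ∧ b = 0 := by simpa [Prod.ext_iff] using h
      simp
    · rw [if_pos ⟨by simp, h⟩, gmodel, if_neg h]
      simp [gpos, cdeg, dot, pairing]
      ring_nf
      simp
  have e2 : (if ((0, 1) : ℕ × ℕ) ≤ (a, b) ∧ ((a, b) : ℕ × ℕ) - (0, 1) ≠ 0 then
      dot D (0, 1) * dot D' (0, 1) * gmodel ((a, b) - (0, 1)) k 3 [0] else 0) =
      dot D (0, 1) * dot D' (0, 1) * (b * (b - a) * gpt (a, b) (k + 1)) := by
    rcases b with _ | b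
    · simp
    have e5 : ((a, b + 1) : ℕ × ℕ) - (0, 1) = (a, b) := by simp
    push_cast
    rw [e5, gpt_right]
    by_cases h : ((a, b) : ℕ × ℕ) = 0
    · obtain ⟨rfl, rfl⟩ : a = 0 ∧ b = 0 := by simpa [Prod.ext_iff] using h
      simp [gpt]
    · rw [if_pos ⟨by simp, h⟩, gmodel, if_neg h]
      simp [gpos, cdeg]
  rw [e1, e2, if_pos h0, gmodel, gmodel, if_neg h0, if_neg h0]
  have hD2 : D = 1 ∨ D = 2 := by fin_cases D <;> simp_all [cdeg]
  have hD3 : D' = 1 ∨ D' = 2 := by fin_cases D' <;> simp_all [cdeg]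
  rcases hD2 with rfl | rfl <;> rcases hD3 with rfl | rfl <;>
    simp [gpos, cdeg, dot, pairing] <;> ring

end Pool.Agent.Lib.MP_02acd8_ag
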