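import Pool.Agent.Lib.MP_02acd8_ag.PencilD
import Pool.Agent.Lib.MP_02acd8_ag.H1
import Pool.Agent.Lib.MP_02acd8_ag.GW2

open AlgebraicGeometry CategoryTheory HomogeneousLocalization

set_option linter.unusedSectionVars false
set_option maxSynthPendingDepth 3

noncomputable section

namespace Pool.Agent.Lib.MP_02acd8_ag

/-- The coordinate ring of the line maps to the degree zero part. -/
def kap : Polynomial ℂ →ₐ[ℂ] PG 0 := Polynomial.aeval ⟨et, et_mem⟩

lemma coe_kap (p : Polynomial ℂ) : (kap p : PA) = Polynomial.aeval et p := by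
  induction p using Polynomial.induction_on with
  | C z => rw [kap, Polynomial.aeval_C, Polynomial.aeval_C]; rfl
  | add p q hp hq => rw [map_add, map_add, ← hp, ← hq]; rfl
  | monomial n z h =>
    rw [pow_succ, ← mul_assoc, map_mul, map_mul _ _ Polynomial.X, ← h, kap, Polynomial.aeval_X,
      Polynomial.aeval_X]
    rfl

lemma kap_surjective : Function.Surjective kap := by
  rintro ⟨r, hr⟩
  have := pencil_induction (P := fun r => ∃ p : Polynomial ℂ, Polynomial.aeval et p = r)
    ⟨0, map_zero _⟩ (by rintro _ _ ⟨a, rfl⟩ ⟨b, rfl⟩; exact ⟨a + b, map_add _ _ _⟩)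
    (by rintro z _ ⟨a, rfl⟩; exact ⟨z • a, map_smul _ _ _⟩) (fun k i j l e => by
      obtain ⟨rfl, rfl, rfl⟩ : i = 0 ∧ j = 0 ∧ l = 0 := by omega
      exact ⟨Polynomial.X ^ k, by simp⟩) r hr
  obtain ⟨p, hp⟩ := this
  exact ⟨p, Subtype.ext ((coe_kap p).trans hp)⟩

/-- The superpotential. -/
def pw : Proj PG ⟶ Line := Proj.toSpecZero PG ≫ Spec.map (CommRingCat.ofHom kap.toRingHom)

lemma pw_comp : pw ≫ lineToPt = projStr PG (algebraMap ℂ (PG 0)) := by
  rw [pw, lineToPt, Category.assoc, ← Spec.map_comp, ← CommRingCat.ofHom_comp]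
  congr 3
  ext z : 1
  exact kap.commutes z

lemma pw_proper : IsProper pw := by
  have : IsScalarTower ℂ (PG 0) PA :=
    IsScalarTower.of_algebraMap_eq (R := ℂ) (S := PG 0) (A := PA) fun _ => rfl
  have : Algebra.FiniteType ℂ PA := Algebra.FiniteType.of_surjective Φ Φ_surjective
  have : Algebra.FiniteType (PG 0) PA := Algebra.FiniteType.of_restrictScalars_finiteType ℂ _ _
  have : IsClosedImmersion (Spec.map (CommRingCat.ofHom kap.toRingHom)) :=
    IsClosedImmersion.spec_of_surjective _ kap_surjective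
  unfold pw
  infer_instance

lemma pw_torus : ∃ j : Spec (CommRingCat.of (Laurent 2)) ⟶ Proj PG, IsOpenImmersion j ∧
    j ≫ pw = Spec.map (CommRingCat.ofHom (Polynomial.aeval mirror).toRingHom) := by
  obtain ⟨e, he⟩ := exists_torus pev.toRingHom pev_inj torus_mem torus_unit torus_surj
  refine ⟨Spec.map e.toCommRingCatIso.hom ≫ Proj.awayι PG _ torus_mem three_pos, inferInstance, ?_⟩
  rw [pw, Category.assoc, Proj.awayι_toSpecZero_assoc, ← Spec.map_comp, ← Spec.map_comp]
  congr 1
  refine CommRingCat.hom_ext (RingHom.ext fun p => ?_)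
  have h1 := he 0 (kap p) (by simp)
  rw [pow_zero, mul_one] at h1
  have h2 : fromZeroRingHom PG _ (kap p) = Away.mk PG torus_mem 0 (kap p) (by simp) := by
    ext
    simp [fromZeroRingHom, Away.mk]
  change e (fromZeroRingHom PG _ (kap p)) = Polynomial.aeval mirror p
  rw [h2, h1, coe_kap, ← pev_t]
  exact (Polynomial.aeval_algHom_apply pev et p).symm

lemma mem_toSpecZero (x : Proj PG) (a : PG 0) :
    a ∈ (Proj.toSpecZero PG x).asIdeal ↔ (a : PA) ∈ x.asHomogeneousIdeal := by
  obtain ⟨P⟩ := nonempty_PData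
  obtain ⟨i, hi⟩ := pencil_cover x
  have g0 : pg i ≠ 0 := fun e => hi (by rw [e]; exact zero_mem _)
  obtain ⟨p, rfl⟩ := exists_away (pg_mem i) (pd_pos i) hi
  rw [P.H.mem_away_iff (pg_mem i) (pd_pos i) g0 p 0 a (by simp), ← Scheme.Hom.comp_apply,
    Proj.awayι_toSpecZero]
  have h2 : fromZeroRingHom PG _ a = Away.mk PG (pg_mem i) 0 a (by simp) := by
    ext
    simp [fromZeroRingHom, Away.mk]
  rw [← h2]
  rfl

lemma mem_fibre (c : ℂ) (x : Proj PG) :
    x ∈ fibre pw c ↔ et - algebraMap ℂ PA c ∈ x.asHomogeneousIdeal := by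
  have : et - algebraMap ℂ PA c = (kap (Polynomial.X - Polynomial.C c) : PA) := by
    simp [coe_kap]
  rw [this, ← mem_toSpecZero, fibre, Set.mem_ofPred_eq, pw, Scheme.Hom.comp_apply]
  rfl

lemma fibre_irreducible (c : ℂ) : IsIrreducible (fibre pw c) := by
  obtain ⟨h1, h2⟩ := fibre_prime c
  have hm : et - algebraMap ℂ PA c ∈ PG 0 := sub_mem et_mem (algebraMap ℂ (PG 0) c).2
  let q : ProjectiveSpectrum PG :=
    ⟨⟨Ideal.span {et - algebraMap ℂ PA c}, Ideal.homogeneous_span _ _ (by
      rintro _ rfl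
      exact ⟨0, hm⟩)⟩, h1, fun H => h2 (H (mem_irr PG eZ_mem one_pos))⟩
  have : fibre pw c = closure {(q : Proj PG)} := by
    ext x
    rw [mem_fibre]
    refine Iff.trans ?_ (ProjectiveSpectrum.le_iff_mem_closure PG q x)
    exact (Ideal.span_singleton_le_iff_mem x.asHomogeneousIdeal.toIdeal).symm
  rw [this]
  exact isIrreducible_singleton.closure

theorem pencil_CY : IsCYCompactification mirror pw := by
  obtain ⟨P⟩ := nonempty_PData
  refine ⟨?_, ?_, pw_proper, pw_torus⟩
  · rw [pw_comp]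
    have := P.smooth
    exact SmoothOfRelativeDimension.smooth 2 _
  · rw [pw_comp]
    exact P.trivialCanonical

theorem main : ∃ _ : IsIntegral (toricVar mirror),
    IsFano 2 (toricStr mirror) ∧ hOneOne (loc (toricStr mirror)) = 2 ∧
    (∃ I, GWRelations I ∧ GWCounts I) ∧
    (∀ I, GWRelations I → GWCounts I → period mirror = quantumPeriod I) ∧
    ∃ (Y : Scheme.{0}) (_ : IsIntegral Y) (w : Y ⟶ Line),
      IsCYCompactification mirror w ∧ ∀ c, IsIrreducible (fibre w c) := by
  obtain ⟨T⟩ := nonempty_TData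
  exact ⟨toric_integral, T.fano, T.hOneOne_toric, ⟨gmodel, gw_model⟩, fun _ => period_eq,
    Proj PG, pencil_integral, pw, pencil_CY, fibre_irreducible⟩

end Pool.Agent.Lib.MP_02acd8_ag
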