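import Pool.Agent.Lib.MP_02acd8_ag.Toric

set_option linter.unusedSimpArgs false

noncomputable section

namespace Pool.Agent.Lib.MP_02acd8_ag

/-- The shape of a system of invariants. -/
abbrev GWSys : Type := ℕ × ℕ → ℕ → Fin 4 → List (Fin 4) → ℚ

/-- The one-point invariants. -/
def gval (a b : ℕ) : ℚ :=
  if a ≤ b then 1 / (a.factorial ^ 2 * b.factorial * (b - a).factorial) else 0

lemma gval_left (a b : ℕ) : (a + 1 : ℚ) ^ 2 * gval (a + 1) b = (b - a) * gval a b := by
  unfold gval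
  rcases lt_trichotomy a b with h | rfl | h
  · obtain ⟨c, rfl⟩ := Nat.exists_eq_add_of_lt h
    rw [if_pos (by omega), if_pos (by omega), show a + c + 1 - (a + 1) = c by omega,
      show a + c + 1 - a = c + 1 by omega, Nat.factorial_succ a, Nat.factorial_succ c]
    push_cast
    field_simp
    ring
  · simp
  · rw [if_neg (by omega), if_neg (by omega)]
    simp

lemma gval_right (a b : ℕ) : (b + 1 : ℚ) * (b + 1 - a) * gval a (b + 1) = gval a b := by
  unfold gval
  rcases lt_trichotomy a (b + 1) with h | rfl | h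
  · obtain ⟨c, rfl⟩ := Nat.exists_eq_add_of_le (Nat.lt_succ_iff.1 h)
    rw [if_pos (by omega), if_pos (by omega), show a + c + 1 - a = c + 1 by omega,
      show a + c - a = c by omega, Nat.factorial_succ (a + c), Nat.factorial_succ c]
    push_cast
    field_simp
    ring
  · simp
  · rw [if_neg (by omega), if_neg (by omega)]
    simp

lemma coeff_mirror_pow (d : ℕ) : (mirror ^ d).coeff 0 =
    ((d.factorial * ∑ b ∈ Finset.range (d / 2 + 1), gval (d - 2 * b) b : ℚ) : ℂ) := by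
  classical
  rw [mirror_eq, Finset.sum_pow_eq_sum_piAntidiag, AddMonoidAlgebra.coeff_sum,
    Finsupp.finsetSum_apply]
  have h1 : ∀ k : Fin 4 → ℕ, ((Nat.multinomial Finset.univ k : Laurent 2) *
      ∏ i, mono (ray i) ^ k i).coeff 0 =
      if k 0 = k 2 + k 3 ∧ k 1 = k 3 then (Nat.multinomial Finset.univ k : ℂ) else 0 := by
    intro k
    rw [Fin.prod_univ_four, ← mono_nsmul, ← mono_nsmul, ← mono_nsmul, ← mono_nsmul, ← mono_add,
      ← mono_add, ← mono_add, ← nsmul_eq_mul, ← Nat.cast_smul_eq_nsmul ℂ, ← single_eq_smul,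
      AddMonoidAlgebra.coeff_single, Finsupp.single_apply]
    refine if_congr ?_ rfl rfl
    rw [funext_iff, Fin.forall_fin_two]
    simp [ray]
    omega
  simp only [h1, gval, Finset.mul_sum, mul_ite, mul_zero]
  rw [← Finset.sum_filter, ← Finset.sum_filter, Rat.cast_sum]
  refine Finset.sum_nbij' (fun k => k 0) (fun b => ![b, d - 2 * b, b - (d - 2 * b), d - 2 * b])
    ?_ ?_ ?_ ?_ ?_
  · intro k hk
    simp only [Finset.mem_filter, Finset.mem_piAntidiag, Fin.sum_univ_four, Finset.mem_range] at *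
    omega
  · intro b hb
    simp only [Finset.mem_filter, Finset.mem_piAntidiag, Fin.sum_univ_four, Finset.mem_range] at *
    simp
    omega
  · intro k hk
    simp only [Finset.mem_filter, Finset.mem_piAntidiag, Fin.sum_univ_four] at hk
    ext i
    fin_cases i <;> simp <;> omega
  · intro b _
    rfl
  · intro k hk
    simp only [Finset.mem_filter, Finset.mem_piAntidiag, Fin.sum_univ_four] at hk
    have h := Nat.multinomial_spec Finset.univ k
    rw [Fin.prod_univ_four, Fin.sum_univ_four, hk.1.1, hk.2.2] at h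
    have h' := congrArg (Nat.cast : ℕ → ℂ) h
    rw [show d - 2 * k 0 = k 3 by omega, show k 0 - k 3 = k 2 by omega]
    push_cast at h' ⊢
    have := Nat.cast_ne_zero (R := ℂ).2 (k 0).factorial_ne_zero
    have := Nat.cast_ne_zero (R := ℂ).2 (k 2).factorial_ne_zero
    have := Nat.cast_ne_zero (R := ℂ).2 (k 3).factorial_ne_zero
    rw [← h']
    field_simp

lemma sum_delta (β δ : ℕ × ℕ) (h : ℕ × ℕ → ℚ) :
    (∑ γ ∈ Finset.Iic β with γ ≠ 0, if β - γ = δ then h γ else 0) =
      if δ ≤ β ∧ β - δ ≠ 0 then h (β - δ) else 0 := by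
  have key : ∀ γ ∈ (Finset.Iic β).filter (· ≠ 0), (β - γ = δ ↔ γ = β - δ ∧ δ ≤ β) := by
    rintro ⟨a, b⟩ hγ
    obtain ⟨a', b'⟩ := β
    obtain ⟨a'', b''⟩ := δ
    simp only [Finset.mem_filter, Finset.mem_Iic, Prod.mk_le_mk, Prod.mk_sub_mk,
      Prod.mk.injEq] at *
    omega
  rw [Finset.sum_congr rfl fun γ hγ => if_congr (key γ hγ) rfl rfl]
  by_cases hle : δ ≤ β
  · simp only [hle, and_true, true_and, Finset.sum_ite_eq', Finset.mem_filter, Finset.mem_Iic,
      tsub_le_self]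
  · simp [hle]

/-- The relations used to evaluate the recursion. -/
structure Pre (I : GWSys) : Prop where
  dim : ∀ β k i l, I β k i l ≠ 0 → k + cdeg i + (l.map cdeg).sum = β.1 + 2 * β.2 + l.length
  zero : ∀ i j m, I 0 0 i [j, m] = triple i j m
  div : ∀ β k i D l, β ≠ 0 → cdeg D = 1 → l.length ≤ 1 → k = 0 ∨ i = 3 →
    I β k i (D :: l) = dot D β * I β k i l
  cnt : GWCounts I

lemma Pre.inner {I : GWSys} (h : Pre I) (δ : ℕ × ℕ) {D D' : Fin 4} (hD : cdeg D = 1)
    (hD' : cdeg D' = 1) (x : Fin 4 → ℚ) :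
    ∑ r, ∑ s, x r * copairing r s * I δ 0 s [D, D'] =
      (if δ = 0 then x 3 * pairing D D' else 0) +
        (if δ = (1, 0) then dot D (1, 0) * dot D' (1, 0) * x 2 else 0) +
        if δ = (0, 1) then dot D (0, 1) * dot D' (0, 1) * x 0 else 0 := by
  have d0 : D ≠ 0 := by rintro rfl; simp [cdeg] at hD
  have d1 : D' ≠ 0 := by rintro rfl; simp [cdeg] at hD'
  by_cases h0 : δ = 0
  · subst h0
    simp [h.zero, triple, d0, d1, Fin.sum_univ_four, copairing, Prod.ext_iff]
  have e : ∀ s, I δ 0 s [D, D'] = dot D δ * dot D' δ * I δ 0 s [] := fun s => by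
    rw [h.div δ 0 s D _ h0 hD (by simp) (Or.inl rfl), h.div δ 0 s D' _ h0 hD' (by simp) (Or.inl rfl),
      mul_assoc]
  have z : ∀ s, cdeg s ≠ δ.1 + 2 * δ.2 → I δ 0 s [] = 0 := fun s hs => by
    by_contra H
    exact hs (by simpa using h.dim _ _ _ _ H)
  obtain ⟨a, b⟩ := δ
  have h0' : ¬ (a = 0 ∧ b = 0) := by simpa [Prod.ext_iff] using h0
  simp only [e, if_neg h0, Fin.sum_univ_four]
  by_cases h1 : a = 1 ∧ b = 0
  · obtain ⟨rfl, rfl⟩ := h1
    rw [z 0 (by simp [cdeg]), z 3 (by simp [cdeg]), h.cnt.1 1 rfl, h.cnt.1 2 rfl]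
    simp [copairing, dot, pairing]
    ring
  rw [z 0 (by simp [cdeg]; omega), z 1 (by simp [cdeg]; omega), z 2 (by simp [cdeg]; omega),
    if_neg (by simpa using h1)]
  by_cases h2 : a = 0 ∧ b = 1
  · obtain ⟨rfl, rfl⟩ := h2
    rw [h.cnt.2.1]
    simp [copairing]
    ring
  rw [if_neg (by simpa using h2)]
  by_cases h3 : a = 2 ∧ b = 0
  · obtain ⟨rfl, rfl⟩ := h3
    simp [h.cnt.2.2]
  rw [z 3 (by simp [cdeg]; omega)]
  simp

lemma Pre.trr_eq {I : GWSys} (h : Pre I) (β : ℕ × ℕ) (k : ℕ) {D D' : Fin 4} (hD : cdeg D = 1)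
    (hD' : cdeg D' = 1) : trr I β k D D' =
      (if β ≠ 0 then I β k 3 [3] * pairing D D' else 0) +
        (if (1, 0) ≤ β ∧ β - (1, 0) ≠ 0 then
          dot D (1, 0) * dot D' (1, 0) * I (β - (1, 0)) k 3 [2] else 0) +
        if (0, 1) ≤ β ∧ β - (0, 1) ≠ 0 then
          dot D (0, 1) * dot D' (0, 1) * I (β - (0, 1)) k 3 [0] else 0 := by
  rw [trr, Finset.sum_congr rfl fun γ _ => h.inner (β - γ) hD hD' fun r => I γ k 3 [r],
    Finset.sum_add_distrib, Finset.sum_add_distrib, sum_delta, sum_delta, sum_delta]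
  simp

end Pool.Agent.Lib.MP_02acd8_ag
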