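import Pool.Agent.Lib.MP_02acd8_ag.Pencil

open AlgebraicGeometry CategoryTheory HomogeneousLocalization KaehlerDifferential

set_option linter.unusedSectionVars false

noncomputable section

namespace Pool.Agent.Lib.MP_02acd8_ag

lemma torus_mem : eX * eY * eZ ∈ PG 3 :=
  SetLike.mul_mem_graded (SetLike.mul_mem_graded eX_mem eY_mem) eZ_mem

lemma pev_torus : pev (eX * eY * eZ) = mono ![1, 1] := by
  rw [map_mul, map_mul, pev_X, pev_Y, pev_Z, mul_one, ← mono_add]
  congr 1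
  decide

lemma torus_unit : IsUnit (pev (eX * eY * eZ)) := by
  rw [pev_torus]
  refine IsUnit.of_mul_eq_one (mono (-![1, 1])) ?_
  rw [← mono_add, add_neg_cancel, mono_zero]

lemma torus_surj (b : Laurent 2) :
    ∃ n, ∃ r ∈ PG (n • 3), b * pev (eX * eY * eZ) ^ n = pev r := by
  refine laurent_induction (P := fun b => ∃ n, ∃ r ∈ PG (n • 3),
    b * pev (eX * eY * eZ) ^ n = pev r) ⟨0, 0, zero_mem _, by simp⟩ ?_ b fun u _ z => ?_
  · rintro a b ⟨n, r, hr, e⟩ ⟨m, t, ht, e'⟩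
    refine ⟨n + m, r * (eX * eY * eZ) ^ m + (eX * eY * eZ) ^ n * t, ?_, ?_⟩
    · rw [add_smul]
      exact add_mem (SetLike.mul_mem_graded hr (SetLike.pow_mem_graded m torus_mem))
        (SetLike.mul_mem_graded (SetLike.pow_mem_graded n torus_mem) ht)
    · rw [map_add, map_mul pev r, map_mul pev _ t, map_pow, map_pow, ← e, ← e']
      ring
  · obtain ⟨n, i, j, h0, h1, h2⟩ : ∃ n i j : ℕ, u 0 + n = i ∧ u 1 + n = j ∧ i + j ≤ n • 3 :=
      ⟨(u 0).natAbs + (u 1).natAbs, (u 0 + ((u 0).natAbs + (u 1).natAbs : ℕ)).toNat,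
        (u 1 + ((u 0).natAbs + (u 1).natAbs : ℕ)).toNat, by omega, by omega, by
          rw [smul_eq_mul]; omega⟩
    refine ⟨n, z • pmk _ _ (MM_gen 0 i j h2), Submodule.smul_mem _ _ (pmk_mem _ _ _), ?_⟩
    rw [map_smul, pev_pmk, pev_torus, smul_mul_assoc, pow_zero, one_mul, ← mono_nsmul,
      ← mono_nsmul, ← mono_nsmul, ← mono_add, ← mono_add]
    congr 2
    ext k
    fin_cases k <;> simp [h0, h1]

/-- The function field of the total space of the pencil. -/
abbrev PK : Type := FF (projStr PG (algebraMap ℂ (PG 0)))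

/-- Its local rings. -/
abbrev PO : Proj PG → Subring PK := loc (projStr PG (algebraMap ℂ (PG 0)))

/-- The package of data describing the pencil inside its function field. -/
structure PData where
  φ : PA →+* PK
  lam : Laurent 2 →ₐ[ℂ] PK
  H : Dehom PG (algebraMap ℂ (PG 0)) eZ φ
  inj : Function.Injective lam
  eq : ∀ n, ∀ r ∈ PG n, φ r = lam (pev r)

lemma nonempty_PData : Nonempty PData := by
  obtain ⟨φ, H⟩ := exists_Dehom PG (algebraMap ℂ (PG 0)) eZ_mem eZ_ne_zero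
  obtain ⟨lam, h1, h2⟩ := H.exists_lam eZ_mem pev.toRingHom pev_Z
    (fun z => pev.commutes z) pev_inj torus_mem three_pos torus_unit torus_surj
  exact ⟨⟨φ, lam, H, h1, h2⟩⟩

lemma adjoin_frac {K : Type} [Field K] [Algebra ℂ K] {a : Fin 2 → K} {w : MvPolynomial (Fin 2) ℂ}
    {u : K} (hu : MvPolynomial.aeval a w * u = 1) {b : K}
    (hb : b ∈ Algebra.adjoin ℂ {a 0, a 1, u}) : ∃ (p : MvPolynomial (Fin 2) ℂ) (n : ℕ),
      b * MvPolynomial.aeval a w ^ n = MvPolynomial.aeval a p := by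
  induction hb using Algebra.adjoin_induction with
  | mem b hb =>
    rcases hb with rfl | rfl | rfl
    · exact ⟨MvPolynomial.X 0, 0, by simp⟩
    · exact ⟨MvPolynomial.X 1, 0, by simp⟩
    · exact ⟨1, 1, by rw [pow_one, mul_comm, hu, map_one]⟩
  | algebraMap z => exact ⟨MvPolynomial.C z, 0, by simp⟩
  | add _ _ _ _ h1 h2 =>
    obtain ⟨p, n, e⟩ := h1
    obtain ⟨q, m, e'⟩ := h2
    refine ⟨p * w ^ m + q * w ^ n, n + m, ?_⟩
    rw [map_add, map_mul, map_mul, map_pow, map_pow, ← e, ← e']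
    ring
  | mul _ _ _ _ h1 h2 =>
    obtain ⟨p, n, e⟩ := h1
    obtain ⟨q, m, e'⟩ := h2
    refine ⟨p * q, n + m, ?_⟩
    rw [map_mul, ← e, ← e']
    ring

namespace PData

variable (P : PData)

lemma φX : P.φ eX = xx P.lam := by rw [P.eq 1 _ eX_mem, pev_X]; rfl
lemma φY : P.φ eY = yy P.lam := by rw [P.eq 1 _ eY_mem, pev_Y]; rfl
lemma φZ : P.φ eZ = 1 := P.H.one

lemma hx : xx P.lam ≠ 0 := chi_ne_zero _ _
lemma hy : yy P.lam ≠ 0 := chi_ne_zero _ _

lemma φt : P.φ et = xx P.lam + yy P.lam + (xx P.lam)⁻¹ + (xx P.lam)⁻¹ * (yy P.lam)⁻¹ := by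
  have := congrArg P.lam mirror_mul
  simp only [map_add, map_mul, map_pow, map_one] at this
  have hx := P.hx
  have hy := P.hy
  rw [P.eq 0 _ et_mem, pev_t]
  change _ * (xx P.lam * yy P.lam) = xx P.lam ^ 2 * yy P.lam + xx P.lam * yy P.lam ^ 2 +
    yy P.lam + 1 at this
  field_simp
  linear_combination this

lemma t_mem (x : Proj PG) : P.φ et ∈ PO x := by
  have := P.H.div_mem (x := x) et_mem (SetLike.one_mem_graded PG)
    fun h => x.isPrime.ne_top ((Ideal.eq_top_iff_one _).2 h)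
  simpa using this

lemma φ_smul (z : ℂ) (r : PA) : P.φ (z • r) = z • P.φ r := by
  rw [Algebra.smul_def, Algebra.smul_def, map_mul, P.H.const]
  rfl

lemma chart {g : PA} {d : ℕ} (hg : g ∈ PG d) (hd : 0 < d) (hφ : P.φ g ≠ 0) (a : Fin 2 → PK)
    (w : MvPolynomial (Fin 2) ℂ) (l u : PK) (hl : l ≠ 0) (hu : MvPolynomial.aeval a w * u = 1)
    (h1 : ∀ x : Proj PG, g ∉ x.asHomogeneousIdeal → a 0 ∈ PO x ∧ a 1 ∈ PO x ∧ u ∈ PO x)
    (h3 : ∀ S : Subalgebra ℂ PK, a 0 ∈ S → a 1 ∈ S → u ∈ S → xx P.lam / l ∈ S ∧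
      yy P.lam / l ∈ S ∧ 1 / l ∈ S ∧ P.φ et ∈ S ∧ l ^ d / P.φ g ∈ S)
    (p q r s : PK) (e0 : D ℂ PK (a 0) = p • dlx P.lam + q • dly P.lam)
    (e1 : D ℂ PK (a 1) = r • dlx P.lam + s • dly P.lam) (ε : ℤ) (hε : ε * ε = 1)
    (h4 : ε * u * (p * s - q * r) = 1) :
    SmoothOfRelativeDimension 2 (Proj.awayι PG g hg hd ≫ projStr PG (algebraMap ℂ (PG 0))) ∧
      ∀ x : Proj PG, g ∉ x.asHomogeneousIdeal →
        Generates (PO x) (wedge (dlx P.lam) (dly P.lam)) := by
  have g0 : g ≠ 0 := fun e => hφ (by rw [e, map_zero])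
  obtain ⟨s1, s2, s3, s4, s5⟩ := h3 (Algebra.adjoin ℂ {a 0, a 1, u})
    (Algebra.subset_adjoin (by simp)) (Algebra.subset_adjoin (by simp))
    (Algebra.subset_adjoin (by simp))
  obtain ⟨c1, -, ⟨b, hb⟩, c2⟩ := P.H.chart_spec hg hd g0 (a := a) (xy_injective P.lam P.inj) w
    (fun i => P.H.mem_range_of_loc _ _ _ fun x hx => by
      fin_cases i
      · exact (h1 x hx).1
      · exact (h1 x hx).2.1)
    ⟨u, P.H.mem_range_of_loc _ _ _ fun x hx => (h1 x hx).2.2, hu⟩ (fun b hb => by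
      obtain ⟨n, r, hr, rfl⟩ := (P.H.mem_range_iff hg hd g0 b).1 hb
      refine adjoin_frac hu ?_
      have e : P.φ r / P.φ g ^ n = P.φ r / l ^ (n * d) * (l ^ d / P.φ g) ^ n := by
        rw [div_pow, ← pow_mul, mul_comm d n]
        field_simp
      rw [e]
      refine mul_mem ?_ (pow_mem s5 n)
      refine pencil_induction (P := fun r => P.φ r / l ^ (n * d) ∈ Algebra.adjoin ℂ {a 0, a 1, u})
        (by simp) (fun a b ha hb => ?_) (fun z a ha => ?_) (fun k i j m e => ?_) r hr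
      · rw [map_add, add_div]
        exact add_mem ha hb
      · rw [φ_smul, smul_div_assoc]
        exact Subalgebra.smul_mem _ ha _
      · have : P.φ (et ^ k * eX ^ i * eY ^ j * eZ ^ m) / l ^ (n * d) =
            P.φ et ^ k * (xx P.lam / l) ^ i * (yy P.lam / l) ^ j * (1 / l) ^ m := by
          simp only [map_mul, map_pow, φX, φY, φZ, ← e, pow_add, div_pow]
          field_simp
        rw [this]
        exact mul_mem (mul_mem (mul_mem (pow_mem s4 _) (pow_mem s1 _)) (pow_mem s2 _))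
          (pow_mem s3 _))
  refine ⟨c1, fun x hx => ?_⟩
  have e : wedge (dlx P.lam) (dly P.lam) = (ε * u) • wedgeD a := by
    rw [wedgeD_eq, e0, e1, wedge_comb, smul_smul, h4, one_smul]
  have hw : ∀ w : MvPolynomial (Fin 2) ℂ, MvPolynomial.aeval a w ∈ PO x := fun w => by
    induction w using MvPolynomial.induction_on with
    | C z => simpa using (c2 x hx).const z
    | add p q hp hq => rw [map_add]; exact add_mem hp hq
    | mul_X p i hp => rw [map_mul, MvPolynomial.aeval_X]; exact mul_mem hp ((c2 x hx).mem i)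
  rw [e]
  refine ((c2 x hx).generates ?_).smul (mul_mem (intCast_mem _ ε) (h1 x hx).2.2)
    (mul_mem (intCast_mem _ ε) (hw w)) ?_
  · rw [wedgeD_eq, ← hb, ← hb]
    exact wedge_ne_zero b
  · rw [mul_mul_mul_comm, ← Int.cast_mul, hε, mul_comm u, hu]
    simp

lemma Dx : D ℂ PK (xx P.lam) = xx P.lam • dlx P.lam := by
  rw [dlx, smul_smul, mul_inv_cancel₀ P.hx, one_smul]

lemma Dy : D ℂ PK (yy P.lam) = yy P.lam • dly P.lam := by
  rw [dly, smul_smul, mul_inv_cancel₀ P.hy, one_smul]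

lemma Dxi : D ℂ PK (xx P.lam)⁻¹ = (-(xx P.lam)⁻¹) • dlx P.lam := by
  rw [Derivation.leibniz_inv, dlx, smul_smul]
  congr 1
  ring

lemma Dyi : D ℂ PK (yy P.lam)⁻¹ = (-(yy P.lam)⁻¹) • dly P.lam := by
  rw [Derivation.leibniz_inv, dly, smul_smul]
  congr 1
  ring

end PData

end Pool.Agent.Lib.MP_02acd8_ag
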