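import Pool.Agent.Lib.MP_02acd8_ag.PencilB

open AlgebraicGeometry CategoryTheory HomogeneousLocalization KaehlerDifferential

set_option linter.unusedSectionVars false

noncomputable section

namespace Pool.Agent.Lib.MP_02acd8_ag

/-- The form cutting out the chart around the triple point. -/
def q3 : PA := eX * eX + eX * eY + eZ * eZ - et * (eX * eZ)

/-- The form cutting out the chart around the double point. -/
def q4 : PA := eY + eX - et * eZ

lemma q3_mem : q3 ∈ PG 2 :=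
  sub_mem (add_mem (add_mem (SetLike.mul_mem_graded eX_mem eX_mem)
    (SetLike.mul_mem_graded eX_mem eY_mem)) (SetLike.mul_mem_graded eZ_mem eZ_mem))
    (SetLike.mul_mem_graded et_mem (SetLike.mul_mem_graded eX_mem eZ_mem))

lemma q4_mem : q4 ∈ PG 1 :=
  sub_mem (add_mem eY_mem eX_mem) (SetLike.mul_mem_graded et_mem eZ_mem)

/-- The five charts. -/
def pg : Fin 5 → PA := ![eX * eY * eZ, eX * eY, eY * eZ, eX * q3, eY * q4]

/-- Their degrees. -/
def pd : Fin 5 → ℕ := ![3, 2, 2, 3, 2]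

lemma pg_mem (i : Fin 5) : pg i ∈ PG (pd i) := by
  fin_cases i
  · exact torus_mem
  · exact SetLike.mul_mem_graded eX_mem eY_mem
  · exact SetLike.mul_mem_graded eY_mem eZ_mem
  · exact SetLike.mul_mem_graded eX_mem q3_mem
  · exact SetLike.mul_mem_graded eY_mem q4_mem

lemma pd_pos (i : Fin 5) : 0 < pd i := by fin_cases i <;> simp [pd]

lemma not_all_mem (x : Proj PG) (hX : eX ∈ x.asHomogeneousIdeal.toIdeal)
    (hY : eY ∈ x.asHomogeneousIdeal.toIdeal) (hZ : eZ ∈ x.asHomogeneousIdeal.toIdeal) : False := by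
  classical
  apply x.not_irrelevant_le
  intro r hr
  rw [← DirectSum.sum_support_decompose PG r]
  refine sum_mem fun n _ => ?_
  rcases Nat.eq_zero_or_pos n with rfl | hn
  · have : (DirectSum.decompose PG r 0 : PA) = 0 := hr
    rw [this]
    exact zero_mem _
  refine pencil_induction (P := fun r => r ∈ x.asHomogeneousIdeal.toIdeal) (zero_mem _)
    (fun a b => add_mem) (fun z a ha => ?_) (fun k i j l e => ?_) _ (DirectSum.decompose PG r n).2
  · rw [Algebra.smul_def]
    exact Ideal.mul_mem_left _ _ ha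
  · rcases Nat.eq_zero_or_pos i with rfl | hi
    · rcases Nat.eq_zero_or_pos j with rfl | hj
      · exact Ideal.mul_mem_left _ _ (Ideal.pow_mem_of_mem _ hZ _ (by omega))
      · exact Ideal.mul_mem_right _ _ (Ideal.mul_mem_left _ _ (Ideal.pow_mem_of_mem _ hY _ hj))
    · exact Ideal.mul_mem_right _ _ (Ideal.mul_mem_right _ _
        (Ideal.mul_mem_left _ _ (Ideal.pow_mem_of_mem _ hX _ hi)))

lemma pencil_cover (x : Proj PG) : ∃ i, pg i ∉ x.asHomogeneousIdeal := by
  by_contra H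
  push Not at H
  have hp := x.isPrime
  set I := x.asHomogeneousIdeal.toIdeal with hI
  have h1 : eX * eY ∈ I := H 1
  have h2 : eY * eZ ∈ I := H 2
  have h3 : eX * q3 ∈ I := H 3
  have h4 : eY * q4 ∈ I := H 4
  by_cases hY : eY ∈ I
  · have hZ : eZ ∈ I := by
      refine hp.mem_of_pow_mem 3 ?_
      have : eZ ^ 3 = eY * (et * eX * eZ - eZ ^ 2 - eX * (eX + eY)) := by
        linear_combination pencil_rel
      rw [this]
      exact I.mul_mem_right _ hY
    refine not_all_mem x (hp.mem_of_pow_mem 3 ?_) hY hZ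
    have : eX ^ 3 = eX * q3 - eY * (eX * eX) - eZ * (eX * eZ - et * eX * eX) := by
      rw [q3]
      ring
    rw [this]
    exact sub_mem (sub_mem h3 (I.mul_mem_right _ hY)) (I.mul_mem_right _ hZ)
  · have hX := (hp.mem_or_mem h1).resolve_right hY
    have hZ := (hp.mem_or_mem h2).resolve_left hY
    have hq := (hp.mem_or_mem h4).resolve_left hY
    apply hY
    have : eY = q4 - eX + et * eZ := by
      rw [q4]
      ring
    rw [this]
    exact add_mem (sub_mem hq hX) (I.mul_mem_left _ hZ)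

lemma notMem_left {x : Proj PG} {a b : PA} (h : a * b ∉ x.asHomogeneousIdeal) :
    a ∉ x.asHomogeneousIdeal := fun H => h (Ideal.mul_mem_right _ _ H)

lemma notMem_right {x : Proj PG} {a b : PA} (h : a * b ∉ x.asHomogeneousIdeal) :
    b ∉ x.asHomogeneousIdeal := fun H => h (Ideal.mul_mem_left _ _ H)

namespace PData

variable (P : PData)

/-- What is needed of a chart. -/
def Good (i : Fin 5) : Prop :=
  SmoothOfRelativeDimension 2 (Proj.awayι PG (pg i) (pg_mem i) (pd_pos i) ≫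
    projStr PG (algebraMap ℂ (PG 0))) ∧
    ∀ x : Proj PG, pg i ∉ x.asHomogeneousIdeal → Generates (PO x) (wedge (dlx P.lam) (dly P.lam))

lemma mem_of_eq {α β : Type} [SetLike α β] {S : α} {a b : β} (h : a ∈ S) (e : b = a) : b ∈ S :=
  e ▸ h

lemma good0 : P.Good 0 := by
  have hx := P.hx
  have hy := P.hy
  have hg : P.φ (eX * eY * eZ) = xx P.lam * yy P.lam := by
    rw [map_mul, map_mul, φX, φY, φZ, mul_one]
  refine P.chart torus_mem three_pos (hg ▸ mul_ne_zero hx hy) ![xx P.lam, yy P.lam]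
    (MvPolynomial.X 0 * MvPolynomial.X 1) 1 ((xx P.lam)⁻¹ * (yy P.lam)⁻¹) one_ne_zero
    (by simp; field_simp) (fun x h => ?_) (fun S h0 h1 h2 => ?_) (xx P.lam) 0 0 (yy P.lam)
    (by simp [Dx]) (by simp [Dy]) 1 rfl (by simp; field_simp)
  · have hZ := notMem_right h
    have hX := notMem_left (notMem_left h)
    have hY := notMem_right (notMem_left h)
    refine ⟨mem_of_eq (P.H.div_mem eX_mem eZ_mem hZ) (by simp [φX, φZ]),
      mem_of_eq (P.H.div_mem eY_mem eZ_mem hZ) (by simp [φY, φZ]),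
      mem_of_eq (mul_mem (P.H.div_mem eZ_mem eX_mem hX) (P.H.div_mem eZ_mem eY_mem hY))
        (by simp [φX, φY, φZ])⟩
  · change xx P.lam ∈ S at h0
    change yy P.lam ∈ S at h1
    refine ⟨by simpa, by simpa, by simp, mem_of_eq (add_mem (add_mem (add_mem h0 h1)
      (mul_mem h1 h2)) h2) ?_, mem_of_eq h2 ?_⟩
    · rw [φt]
      field_simp
    · rw [hg]
      field_simp

lemma good1 : P.Good 1 := by
  have hx := P.hx
  have hy := P.hy
  have hg : P.φ (eX * eY) = xx P.lam * yy P.lam := by rw [map_mul, φX, φY]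
  refine P.chart (pg_mem 1) two_pos (hg ▸ mul_ne_zero hx hy)
    ![(xx P.lam)⁻¹, xx P.lam + yy P.lam]
    (MvPolynomial.X 0 * MvPolynomial.X 1 - 1) (xx P.lam) (xx P.lam * (yy P.lam)⁻¹) hx
    (by simp; field_simp; ring) (fun x h => ?_) (fun S h0 h1 h2 => ?_) (-(xx P.lam)⁻¹) 0
    (xx P.lam) (yy P.lam) (by simp [Dxi]) (by simp [Dx, Dy]) (-1) rfl (by simp; field_simp)
  · have hX := notMem_left (show eX * eY ∉ _ from h)
    have hY := notMem_right (show eX * eY ∉ _ from h)
    have h1 := P.H.div_mem eZ_mem eX_mem hX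
    have h2 := P.H.div_mem eZ_mem eY_mem hY
    refine ⟨mem_of_eq h1 (by simp [φX, φZ]),
      mem_of_eq (sub_mem (sub_mem (P.t_mem x) h1) (mul_mem h1 h2)) ?_,
      mem_of_eq (P.H.div_mem eX_mem eY_mem hY) (by simp [φX, φY, div_eq_mul_inv])⟩
    simp [φX, φY, φZ, φt]
    ring
  · change (xx P.lam)⁻¹ ∈ S at h0
    change xx P.lam + yy P.lam ∈ S at h1
    refine ⟨by simp [hx], mem_of_eq (sub_mem (mul_mem h0 h1) (one_mem _)) ?_, by simpa,
      mem_of_eq (add_mem (add_mem h1 h0) (mul_mem (mul_mem h0 h0) h2)) ?_, mem_of_eq h2 ?_⟩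
    · field_simp
      ring
    · rw [φt]
      field_simp
    · change _ ^ 2 / P.φ (eX * eY) = _
      rw [hg]
      field_simp

lemma good2 : P.Good 2 := by
  have hx := P.hx
  have hy := P.hy
  have hg : P.φ (eY * eZ) = yy P.lam := by rw [map_mul, φY, φZ, mul_one]
  refine P.chart (pg_mem 2) two_pos (hg ▸ hy)
    ![xx P.lam, (xx P.lam)⁻¹ * (yy P.lam + 1)]
    (MvPolynomial.X 0 * MvPolynomial.X 1 - 1) 1 (yy P.lam)⁻¹ one_ne_zero
    (by simp; field_simp; ring) (fun x h => ?_) (fun S h0 h1 h2 => ?_) (xx P.lam) 0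
    (-(xx P.lam)⁻¹ * (yy P.lam + 1)) ((xx P.lam)⁻¹ * yy P.lam) (by simp [Dx]) ?_ 1 rfl
    (by simp; field_simp)
  · have hY := notMem_left (show eY * eZ ∉ _ from h)
    have hZ := notMem_right (show eY * eZ ∉ _ from h)
    have h1 := P.H.div_mem eX_mem eZ_mem hZ
    have h2 := P.H.div_mem eY_mem eZ_mem hZ
    refine ⟨mem_of_eq h1 (by simp [φX, φZ]),
      mem_of_eq (mul_mem h2 (sub_mem (sub_mem (P.t_mem x) h1) h2)) ?_,
      mem_of_eq (P.H.div_mem eZ_mem eY_mem hY) (by simp [φZ, φY])⟩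
    simp [φX, φY, φZ, φt]
    field_simp
    ring
  · change xx P.lam ∈ S at h0
    change (xx P.lam)⁻¹ * (yy P.lam + 1) ∈ S at h1
    have h3 : yy P.lam ∈ S := mem_of_eq (sub_mem (mul_mem h0 h1) (one_mem _)) (by
      field_simp
      ring)
    refine ⟨by simpa, by simpa, by simp,
      mem_of_eq (add_mem (add_mem h0 h3) (mul_mem h1 h2)) ?_, mem_of_eq h2 ?_⟩
    · rw [φt]
      field_simp
      ring
    · change _ ^ 2 / P.φ (eY * eZ) = _
      rw [hg]
      field_simp
  · simp only [Matrix.cons_val_one, Matrix.cons_val_zero, Derivation.leibniz, map_add, Dxi, Dy,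
      Derivation.map_one_eq_zero]
    module

lemma good3 : P.Good 3 := by
  have hx := P.hx
  have hy := P.hy
  have hq : P.φ q3 = -(yy P.lam)⁻¹ := by
    simp only [q3, map_sub, map_add, map_mul, φX, φY, φZ, φt]
    field_simp
    ring
  have hg : P.φ (eX * q3) = xx P.lam * -(yy P.lam)⁻¹ := by rw [map_mul, φX, hq]
  refine P.chart (pg_mem 3) three_pos (hg ▸ by simp [hx, hy])
    ![(xx P.lam)⁻¹, -xx P.lam - (xx P.lam)⁻¹ * (yy P.lam)⁻¹]
    (1 + MvPolynomial.X 0 * MvPolynomial.X 1) (xx P.lam) (-(xx P.lam ^ 2 * yy P.lam)) hx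
    (by simp; field_simp; ring) (fun x h => ?_) (fun S h0 h1 h2 => ?_) (-(xx P.lam)⁻¹) 0
    (-xx P.lam + (xx P.lam)⁻¹ * (yy P.lam)⁻¹) ((xx P.lam)⁻¹ * (yy P.lam)⁻¹) (by simp [Dxi]) ?_ 1 rfl
    (by simp; field_simp)
  · have hX := notMem_left (show eX * q3 ∉ _ from h)
    have hQ := notMem_right (show eX * q3 ∉ _ from h)
    have h1 := P.H.div_mem eZ_mem eX_mem hX
    have h2 := P.H.div_mem (SetLike.mul_mem_graded eZ_mem eZ_mem) q3_mem hQ
    refine ⟨mem_of_eq h1 (by simp [φX, φZ]),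
      mem_of_eq (sub_mem (sub_mem h1 h2) (P.t_mem x)) ?_,
      mem_of_eq (P.H.div_mem (SetLike.mul_mem_graded eX_mem eX_mem) q3_mem hQ) ?_⟩
    · simp [φX, φZ, φt, hq]
      ring
    · simp [φX, hq]
      field_simp
  · change (xx P.lam)⁻¹ ∈ S at h0
    change -xx P.lam - (xx P.lam)⁻¹ * (yy P.lam)⁻¹ ∈ S at h1
    refine ⟨by simp [hx], mem_of_eq (neg_mem (mul_mem (pow_mem h0 3) h2)) ?_, by simpa,
      mem_of_eq (sub_mem (sub_mem h0 h1) (mul_mem (pow_mem h0 2) h2)) ?_, mem_of_eq h2 ?_⟩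
    · field_simp
    · rw [φt]
      field_simp
      ring
    · change _ ^ 3 / P.φ (eX * q3) = _
      rw [hg]
      field_simp
  · simp only [Matrix.cons_val_one, Matrix.cons_val_zero, Derivation.leibniz, map_sub, map_neg,
      Dxi, Dyi, Dx]
    module

lemma good4 : P.Good 4 := by
  have hx := P.hx
  have hy := P.hy
  have hq : P.φ q4 = -((yy P.lam + 1) * ((xx P.lam)⁻¹ * (yy P.lam)⁻¹)) := by
    simp only [q4, map_sub, map_add, map_mul, φX, φY, φZ, φt]
    field_simp
    ring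
  have hy1 : yy P.lam + 1 ≠ 0 := fun e => by
    have := xy_injective P.lam P.inj (a₁ := MvPolynomial.X 1 + 1) (a₂ := 0) (by simpa using e)
    simpa using congrArg (MvPolynomial.eval 0) this
  have hg : P.φ (eY * q4) = yy P.lam * -((yy P.lam + 1) * ((xx P.lam)⁻¹ * (yy P.lam)⁻¹)) := by
    rw [map_mul, φY, hq]
  refine P.chart (pg_mem 4) two_pos (hg ▸ by simp [hx, hy, hy1])
    ![(yy P.lam)⁻¹, -yy P.lam - (xx P.lam)⁻¹ - (xx P.lam)⁻¹ * (yy P.lam)⁻¹]
    (1 + MvPolynomial.X 0 * MvPolynomial.X 1) (yy P.lam)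
    (-(xx P.lam * yy P.lam ^ 2 / (yy P.lam + 1))) hy
    (by simp; field_simp; ring) (fun x h => ?_) (fun S h0 h1 h2 => ?_) 0 (-(yy P.lam)⁻¹)
    ((xx P.lam)⁻¹ + (xx P.lam)⁻¹ * (yy P.lam)⁻¹) (-yy P.lam + (xx P.lam)⁻¹ * (yy P.lam)⁻¹)
    (by simp [Dyi]) ?_ (-1) rfl (by simp; field_simp)
  · have hY := notMem_left (show eY * q4 ∉ _ from h)
    have hQ := notMem_right (show eY * q4 ∉ _ from h)
    have h1 := P.H.div_mem eZ_mem eY_mem hY
    have h2 := P.H.div_mem eZ_mem q4_mem hQ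
    refine ⟨mem_of_eq h1 (by simp [φY, φZ]),
      mem_of_eq (sub_mem (neg_mem (mul_mem h2 (add_mem (one_mem _) h1))) (P.t_mem x)) ?_,
      mem_of_eq (P.H.div_mem eY_mem q4_mem hQ) ?_⟩
    · simp only [φY, φZ, φt, hq, Matrix.cons_val_one, Matrix.cons_val_zero]
      field_simp
      ring
    · simp only [φY, hq]
      field_simp
  · change (yy P.lam)⁻¹ ∈ S at h0
    change -yy P.lam - (xx P.lam)⁻¹ - (xx P.lam)⁻¹ * (yy P.lam)⁻¹ ∈ S at h1
    have h3 := mul_mem (mul_mem h0 (add_mem (one_mem _) h0)) h2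
    refine ⟨mem_of_eq (neg_mem (mul_mem h0 h3)) ?_, by simp [hy], by simpa,
      mem_of_eq (sub_mem (neg_mem h1) h3) ?_, mem_of_eq h2 ?_⟩
    · field_simp
    · rw [φt]
      field_simp
      ring
    · change _ ^ 2 / P.φ (eY * q4) = _
      rw [hg]
      field_simp
  · simp only [Matrix.cons_val_one, Matrix.cons_val_zero, Derivation.leibniz, map_sub, map_neg,
      Dxi, Dyi, Dy]
    module

lemma good (i : Fin 5) : P.Good i := by
  fin_cases i
  exacts [P.good0, P.good1, P.good2, P.good3, P.good4]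

include P in
theorem smooth : SmoothOfRelativeDimension 2 (projStr PG (algebraMap ℂ (PG 0))) :=
  smooth_of_charts pg pd pg_mem pd_pos pencil_cover fun i => (P.good i).1

include P in
theorem trivialCanonical : TrivialCanonical 2 (projStr PG (algebraMap ℂ (PG 0))) :=
  ⟨wedge (dlx P.lam) (dly P.lam), fun x => by
    obtain ⟨i, hi⟩ := pencil_cover x
    exact (P.good i).2 x hi⟩

end PData

end Pool.Agent.Lib.MP_02acd8_ag
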