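import Pool.Agent.Lib.MP_02acd8_ag.Defs

open AlgebraicGeometry CategoryTheory HomogeneousLocalization

set_option linter.unusedSectionVars false

noncomputable section

namespace Pool.Agent.Lib.MP_02acd8_ag

lemma algebraMap_FF {X : Scheme.{0}} [IsIntegral X] (s : X ⟶ Pt) (z : ℂ) :
    algebraMap ℂ (FF s) z = ((Scheme.ΓSpecIso (CommRingCat.of ℂ)).inv ≫ s.appTop ≫
      X.presheaf.germ ⊤ (genericPoint X) trivial).hom z := rfl

variable {A σ : Type} [CommRing A] [IsDomain A] [SetLike σ A] [AddSubgroupClass σ A]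
  (𝒜 : ℕ → σ) [GradedRing 𝒜]

lemma mem_irr {g : A} {d : ℕ} (hg : g ∈ 𝒜 d) (hd : 0 < d) :
    g ∈ HomogeneousIdeal.irrelevant 𝒜 := by
  rw [HomogeneousIdeal.mem_irrelevant_iff]
  change GradedRing.proj 𝒜 0 g = 0
  rw [GradedRing.proj_apply, DirectSum.decompose_of_mem_ne 𝒜 hg hd.ne']

def genPt {h : A} (hh : h ∈ 𝒜 1) (h0 : h ≠ 0) : ProjectiveSpectrum 𝒜 where
  asHomogeneousIdeal := ⊥
  isPrime := Ideal.isPrime_bot
  not_irrelevant_le := fun H => h0 (H (mem_irr 𝒜 hh one_pos))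

lemma genPt_generic {h : A} (hh : h ∈ 𝒜 1) (h0 : h ≠ 0) :
    IsGenericPoint (α := Proj 𝒜) (genPt 𝒜 hh h0) Set.univ := by
  rw [isGenericPoint_def, Set.eq_univ_iff_forall]
  intro y
  exact (ProjectiveSpectrum.le_iff_mem_closure 𝒜 _ y).1
    (show (⊥ : HomogeneousIdeal 𝒜) ≤ y.asHomogeneousIdeal from bot_le)

def toL (S : Submonoid A) (hS : 0 ∉ S) : HomogeneousLocalization 𝒜 S →+* FractionRing A :=
  (IsLocalization.lift (M := S) (S := Localization S) (g := algebraMap A (FractionRing A))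
    (fun y => (isUnit_iff_ne_zero.2 fun e => hS (by
      have : (y : A) = 0 := (IsFractionRing.injective A (FractionRing A)) (by simpa using e)
      exact this ▸ y.2)))).comp (algebraMap _ (Localization S))

lemma toL_mk (S : Submonoid A) (hS : 0 ∉ S) (c : NumDenSameDeg 𝒜 S) :
    toL 𝒜 S hS (mk c) * algebraMap A _ c.den = algebraMap A _ c.num := by
  simp only [toL, RingHom.comp_apply, HomogeneousLocalization.algebraMap_apply, val_mk,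
    Localization.mk_eq_mk']
  rw [mul_comm, eq_comm]
  exact (IsLocalization.lift_mk'_spec _ _ _ _).1 rfl

lemma toL_injective (S : Submonoid A) (hS : 0 ∉ S) : Function.Injective (toL 𝒜 S hS) := by
  rw [injective_iff_map_eq_zero]
  intro z hz
  obtain ⟨c, rfl⟩ := mk_surjective z
  have := toL_mk 𝒜 S hS c
  rw [hz, zero_mul, eq_comm, map_eq_zero_iff _ (IsFractionRing.injective A _)] at this
  exact mk_eq_zero_of_num c (Subtype.ext this)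

lemma zero_notMem_compl (x : Proj 𝒜) : (0 : A) ∉ x.asHomogeneousIdeal.toIdeal.primeCompl :=
  fun H => H (zero_mem _)

def evs (x : Proj 𝒜) : (Proj 𝒜).presheaf.stalk x →+* FractionRing A :=
  (toL 𝒜 _ (zero_notMem_compl 𝒜 x)).comp (Proj.stalkIso 𝒜 x).hom.hom

lemma evs_injective (x : Proj 𝒜) : Function.Injective (evs 𝒜 x) :=
  (toL_injective 𝒜 _ (zero_notMem_compl 𝒜 x)).comp (ConcreteCategory.bijective_of_isIso (Proj.stalkIso 𝒜 x).hom).1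

lemma proj_integral {h : A} (hh : h ∈ 𝒜 1) (h0 : h ≠ 0) : IsIntegral (Proj 𝒜) := by
  have : IrreducibleSpace (Proj 𝒜) := by
    rw [irreducibleSpace_def]
    exact (genPt_generic 𝒜 hh h0).isIrreducible
  have (x : Proj 𝒜) : _root_.IsReduced ((Proj 𝒜).presheaf.stalk x) :=
    isReduced_of_injective _ (evs_injective 𝒜 x)
  have := isReduced_of_isReduced_stalk (Proj 𝒜)
  exact isIntegral_of_irreducibleSpace_of_isReduced _

lemma stalkIso_germ (g : A) (x : Proj 𝒜) (hx : x ∈ Proj.basicOpen 𝒜 g) (z : Away 𝒜 g) :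
    (Proj.stalkIso 𝒜 x).hom ((Proj 𝒜).presheaf.germ _ x hx (Proj.awayToSection 𝒜 g z)) =
      mapId 𝒜 (Submonoid.powers_le.mpr hx) z :=
  Proj.stalkIso'_germ 𝒜 _ x hx _

lemma evs_germ (g : A) (x : Proj 𝒜) (hx : x ∈ Proj.basicOpen 𝒜 g)
    (c : NumDenSameDeg 𝒜 (Submonoid.powers g)) :
    evs 𝒜 x ((Proj 𝒜).presheaf.germ _ x hx (Proj.awayToSection 𝒜 g (mk c))) *
      algebraMap A _ c.den = algebraMap A _ c.num := by
  have := stalkIso_germ 𝒜 g x hx (mk c)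
  rw [evs, RingHom.comp_apply]
  erw [this]
  rw [map_mk]
  exact toL_mk 𝒜 _ _ _

lemma stalk_eq_germ (x : Proj 𝒜) (k : (Proj 𝒜).presheaf.stalk x) :
    ∃ (n : ℕ) (r s : 𝒜 n) (hx : x ∈ Proj.basicOpen 𝒜 (s : A)),
      k = (Proj 𝒜).presheaf.germ _ x hx
        (Proj.awayToSection 𝒜 (s : A) (mk ⟨n, r, s, Submonoid.mem_powers (s : A)⟩)) := by
  obtain ⟨c, hc⟩ := mk_surjective ((Proj.stalkIso 𝒜 x).hom k)
  refine ⟨c.deg, c.num, c.den, c.den_mem, ?_⟩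
  apply (ConcreteCategory.bijective_of_isIso (Proj.stalkIso 𝒜 x).hom).1
  rw [stalkIso_germ, ← hc]
  rfl

variable [IsIntegral (Proj 𝒜)]

lemma generic_mem {g : A} {d : ℕ} (hg : g ∈ 𝒜 d) (hd : 0 < d) (h0 : g ≠ 0) :
    genericPoint (Proj 𝒜) ∈ Proj.basicOpen 𝒜 g := by
  have hb : ProjectiveSpectrum 𝒜 := genericPoint (Proj 𝒜)
  let p : ProjectiveSpectrum 𝒜 :=
    ⟨⊥, Ideal.isPrime_bot, fun H => h0 (H (mem_irr 𝒜 hg hd))⟩
  have hp : (p : Proj 𝒜) ∈ Proj.basicOpen 𝒜 g := fun H => h0 H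
  exact ((genericPoint_spec (Proj 𝒜)).mem_open_set_iff (Proj.basicOpen 𝒜 g).isOpen).mpr
    ⟨p, trivial, hp⟩

abbrev iot : (Proj 𝒜).functionField →+* FractionRing A := evs 𝒜 (genericPoint (Proj 𝒜))

lemma iot_stalk (x : Proj 𝒜) (k : (Proj 𝒜).presheaf.stalk x) :
    iot 𝒜 (algebraMap _ (Proj 𝒜).functionField k) = evs 𝒜 x k := by
  obtain ⟨n, r, s, hx, rfl⟩ := stalk_eq_germ 𝒜 x k
  have : Nonempty (Proj.basicOpen 𝒜 (s : A)) := ⟨⟨x, hx⟩⟩
  rw [Scheme.algebraMap_germ_eq_germToFunctionField]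
  have hs : algebraMap A (FractionRing A) s ≠ 0 := by
    rw [map_ne_zero_iff _ (IsFractionRing.injective A _)]
    intro e
    exact hx (e ▸ zero_mem _)
  apply mul_right_cancel₀ hs
  exact (evs_germ 𝒜 (s : A) _ _ ⟨n, r, s, Submonoid.mem_powers (s : A)⟩).trans
    (evs_germ 𝒜 (s : A) x hx ⟨n, r, s, Submonoid.mem_powers (s : A)⟩).symm

/-- The map from the coordinate ring of a standard chart to the function field. -/
def chartMap {g : A} {d : ℕ} (hg : g ∈ 𝒜 d) (hd : 0 < d) (h0 : g ≠ 0) :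
    Away 𝒜 g →+* (Proj 𝒜).functionField :=
  (Proj.awayToSection 𝒜 g ≫ (Proj 𝒜).presheaf.germ _ _ (generic_mem 𝒜 hg hd h0)).hom

lemma iot_chartMap {g : A} {d : ℕ} (hg : g ∈ 𝒜 d) (hd : 0 < d) (h0 : g ≠ 0) (n : ℕ) (r : A)
    (hr : r ∈ 𝒜 (n • d)) :
    iot 𝒜 (chartMap 𝒜 hg hd h0 (Away.mk 𝒜 hg n r hr)) * algebraMap A _ g ^ n =
      algebraMap A _ r := by
  rw [← map_pow]
  exact evs_germ 𝒜 g _ (generic_mem 𝒜 hg hd h0) _

lemma exists_dehom {h : A} (hh : h ∈ 𝒜 1) (h0 : h ≠ 0) :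
    ∃ φ : A →+* (Proj 𝒜).functionField, ∀ n, ∀ r ∈ 𝒜 n,
      iot 𝒜 (φ r) * algebraMap A _ h ^ n = algebraMap A _ r := by
  have hL : algebraMap A (FractionRing A) h ≠ 0 :=
    (map_ne_zero_iff _ (IsFractionRing.injective A _)).2 h0
  let F : ∀ n, 𝒜 n → (Proj 𝒜).functionField := fun n r =>
    chartMap 𝒜 hh one_pos h0 (Away.mk 𝒜 hh n r (by simp))
  have hF : ∀ n (r : 𝒜 n), iot 𝒜 (F n r) * algebraMap A _ h ^ n = algebraMap A _ r :=
    fun n r => iot_chartMap 𝒜 hh one_pos h0 n r _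
  have ext : ∀ (n : ℕ) (a b : (Proj 𝒜).functionField),
      iot 𝒜 a * algebraMap A _ h ^ n = iot 𝒜 b * algebraMap A _ h ^ n → a = b :=
    fun n a b e => evs_injective 𝒜 _ (mul_right_cancel₀ (pow_ne_zero n hL) e)
  let f : ∀ n, 𝒜 n →+ (Proj 𝒜).functionField := fun n => AddMonoidHom.mk' (F n) fun a b =>
    ext n _ _ (by rw [map_add, add_mul, hF, hF, hF, ← map_add]; rfl)
  let φ := (DirectSum.toSemiring f (ext 0 _ _ (by
      erw [hF]; simp [SetLike.coe_gOne])) (fun {i j} a b => ext (i + j) _ _ (by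
      erw [hF]
      rw [map_mul, pow_add, mul_mul_mul_comm]
      erw [hF, hF]
      rw [← map_mul]; rfl))).comp (DirectSum.decomposeRingEquiv 𝒜).toRingHom
  refine ⟨φ, fun n r hr => ?_⟩
  have : φ r = F n ⟨r, hr⟩ := by
    have e : (DirectSum.decomposeRingEquiv 𝒜).toRingHom r = DirectSum.of (fun i => 𝒜 i) n ⟨r, hr⟩ :=
      DirectSum.decompose_of_mem 𝒜 hr
    rw [RingHom.comp_apply, e, DirectSum.toSemiring_of]
    rfl
  rw [this, hF]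

lemma top_aux (X : Scheme.{0}) (U : X.Opens) (e : U = ⊤) :
    U.topIso.inv ≫ Scheme.Hom.appTop (X.topIso.inv ≫ (X.isoOfEq e).inv) ≫
      X.presheaf.map (homOfLE (le_top : U ≤ ⊤)).op = 𝟙 _ := by
  subst e
  have h1 : (⊤ : X.Opens).ι.appTop ≫ X.topIso.inv.appTop = 𝟙 _ := by
    rw [← Scheme.Hom.comp_appTop, Scheme.toIso_inv_ι, Scheme.Hom.id_appTop]
  have h2 : (⊤ : X.Opens).ι.appTop = (⊤ : X.Opens).topIso.inv := by
    simp
    rfl
  have h3 : X.presheaf.map (homOfLE (le_top : (⊤ : X.Opens) ≤ ⊤)).op = 𝟙 _ := X.presheaf.map_id _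
  rw [Scheme.isoOfEq_rfl, Iso.refl_inv, Category.comp_id, h3, Category.comp_id, ← h2, h1]

lemma toSpecZero_appTop :
    (Scheme.ΓSpecIso _).inv ≫ (Proj.toSpecZero 𝒜).appTop ≫
      (Proj 𝒜).presheaf.map (homOfLE (le_top : Proj.basicOpen 𝒜 1 ≤ ⊤)).op =
      CommRingCat.ofHom (fromZeroRingHom 𝒜 _) ≫ Proj.awayToSection 𝒜 1 := by
  simp only [Proj.toSpecZero, Scheme.Hom.comp_appTop, Category.assoc]
  rw [← Scheme.ΓSpecIso_inv_naturality_assoc]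
  congr 1
  rw [Scheme.Hom.appTop, Proj.basicOpenToSpec_app_top]
  simp only [Category.assoc, Iso.inv_hom_id_assoc, ← Scheme.Hom.comp_appTop_assoc]
  rw [top_aux, Category.comp_id]

lemma iot_const (a : 𝒜 0) :
    iot 𝒜 (((Scheme.ΓSpecIso _).inv ≫ (Proj.toSpecZero 𝒜).appTop ≫
      (Proj 𝒜).presheaf.germ ⊤ (genericPoint _) trivial) a) = algebraMap A _ a := by
  have hx : genericPoint (Proj 𝒜) ∈ Proj.basicOpen 𝒜 1 := by simp
  rw [← (Proj 𝒜).presheaf.germ_res (homOfLE (le_top : Proj.basicOpen 𝒜 1 ≤ ⊤)) _ hx,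
    reassoc_of% (toSpecZero_appTop 𝒜)]
  have := evs_germ 𝒜 1 _ hx ⟨0, a, 1, one_mem _⟩
  simp only [SetLike.GradeZero.coe_one, map_one, mul_one] at this
  exact this

/-- The structure map attached to `c : ℂ → 𝒜 0`. -/
abbrev projStr (c : ℂ →+* 𝒜 0) : Proj 𝒜 ⟶ Pt :=
  Proj.toSpecZero 𝒜 ≫ Spec.map (CommRingCat.ofHom c)

/-- The chart map with values in the function field over `ℂ`. -/
def chartF (c : ℂ →+* 𝒜 0) {g : A} {d : ℕ} (hg : g ∈ 𝒜 d) (hd : 0 < d) (h0 : g ≠ 0) :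
    Away 𝒜 g →+* FF (projStr 𝒜 c) := chartMap 𝒜 hg hd h0

/-- Dehomogenization into the function field. -/
structure Dehom (c : ℂ →+* 𝒜 0) (h : A) (φ : A →+* FF (projStr 𝒜 c)) : Prop where
  one : φ h = 1
  inj : ∀ n, ∀ r ∈ 𝒜 n, φ r = 0 → r = 0
  loc_iff : ∀ (x : Proj 𝒜) k, k ∈ loc (projStr 𝒜 c) x ↔
    ∃ n, ∃ r ∈ 𝒜 n, ∃ t ∈ 𝒜 n, t ∉ x.asHomogeneousIdeal ∧ k * φ t = φ r
  chart : ∀ {g : A} {d : ℕ} (hg : g ∈ 𝒜 d) (hd : 0 < d) (h0 : g ≠ 0) (n : ℕ) (r : A)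
    (hr : r ∈ 𝒜 (n • d)),
    chartF 𝒜 c hg hd h0 (Away.mk 𝒜 hg n r hr) * φ g ^ n = φ r
  const : ∀ z : ℂ, algebraMap ℂ (FF (projStr 𝒜 c)) z = φ (c z)

lemma exists_iot (c : ℂ →+* 𝒜 0) {h : A} (hh : h ∈ 𝒜 1) (h0 : h ≠ 0) :
    ∃ (ι : FF (projStr 𝒜 c) →+* FractionRing A) (φ : A →+* FF (projStr 𝒜 c)),
      (∀ n, ∀ r ∈ 𝒜 n, ι (φ r) * algebraMap A _ h ^ n = algebraMap A _ r) ∧
      (∀ (x : Proj 𝒜) k, k ∈ loc (projStr 𝒜 c) x → ∃ n, ∃ r ∈ 𝒜 n, ∃ t ∈ 𝒜 n,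
        t ∉ x.asHomogeneousIdeal ∧ ι k * algebraMap A _ t = algebraMap A _ r) ∧
      (∀ (x : Proj 𝒜) n, ∀ r ∈ 𝒜 n, ∀ t ∈ 𝒜 n, t ∉ x.asHomogeneousIdeal →
        ∃ k ∈ loc (projStr 𝒜 c) x, ι k * algebraMap A _ t = algebraMap A _ r) ∧
      (∀ {g : A} {d : ℕ} (hg : g ∈ 𝒜 d) (hd : 0 < d) (h0 : g ≠ 0) (n : ℕ) (r : A)
        (hr : r ∈ 𝒜 (n • d)), ι (chartF 𝒜 c hg hd h0 (Away.mk 𝒜 hg n r hr)) *
          algebraMap A _ g ^ n = algebraMap A _ r) ∧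
      ∀ z : ℂ, ι (algebraMap ℂ (FF (projStr 𝒜 c)) z) = algebraMap A _ (c z) := by
  obtain ⟨φ, hφ⟩ := exists_dehom 𝒜 hh h0
  refine ⟨iot 𝒜, φ, hφ, ?_, ?_, fun hg hd g0 n r hr => iot_chartMap 𝒜 hg hd g0 n r hr, ?_⟩
  · rintro x _ ⟨k, rfl⟩
    obtain ⟨n, r, s, hx, rfl⟩ := stalk_eq_germ 𝒜 x k
    refine ⟨n, r, r.2, s, s.2, hx, ?_⟩
    have := evs_germ 𝒜 (s : A) x hx ⟨n, r, s, Submonoid.mem_powers (s : A)⟩
    rw [← iot_stalk] at this
    exact this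
  · intro x n r hr t ht hx
    have := evs_germ 𝒜 t x hx ⟨n, ⟨r, hr⟩, ⟨t, ht⟩, Submonoid.mem_powers t⟩
    rw [← iot_stalk] at this
    exact ⟨_, ⟨_, rfl⟩, this⟩
  · intro z
    rw [← iot_const]
    have : (Scheme.ΓSpecIso (CommRingCat.of ℂ)).inv ≫ (projStr 𝒜 c).appTop ≫
        (Proj 𝒜).presheaf.germ ⊤ (genericPoint _) trivial = CommRingCat.ofHom c ≫
        (Scheme.ΓSpecIso _).inv ≫ (Proj.toSpecZero 𝒜).appTop ≫
        (Proj 𝒜).presheaf.germ ⊤ (genericPoint _) trivial := by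
      rw [Scheme.Hom.comp_appTop, Category.assoc, ← Scheme.ΓSpecIso_inv_naturality_assoc]
    rw [algebraMap_FF, this, CommRingCat.hom_comp, RingHom.comp_apply, CommRingCat.hom_ofHom]
    rfl

theorem exists_Dehom (c : ℂ →+* 𝒜 0) {h : A} (hh : h ∈ 𝒜 1) (h0 : h ≠ 0) :
    ∃ φ, Dehom 𝒜 c h φ := by
  obtain ⟨ι, φ, hφ, h1, h2, h3, h4⟩ := exists_iot 𝒜 c hh h0
  have hL : algebraMap A (FractionRing A) h ≠ 0 :=
    (map_ne_zero_iff _ (IsFractionRing.injective A _)).2 h0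
  have ext : ∀ (n : ℕ) (a b : FF (projStr 𝒜 c)),
      ι a * algebraMap A _ h ^ n = ι b * algebraMap A _ h ^ n → a = b :=
    fun n a b e => ι.injective (mul_right_cancel₀ (pow_ne_zero n hL) e)
  refine ⟨φ, ext 1 _ _ (by rw [hφ 1 h hh]; simp), fun n r hr e => ?_, fun x k => ⟨?_, ?_⟩,
    fun {g d} hg hd g0 n r hr => ext (n • d) _ _ ?_, fun z => ext 0 _ _ ?_⟩
  · have := hφ n r hr
    rw [e, map_zero, zero_mul, eq_comm,
      map_eq_zero_iff _ (IsFractionRing.injective A _)] at this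
    exact this
  · intro hk
    obtain ⟨n, r, hr, t, ht, hx, e⟩ := h1 x k hk
    refine ⟨n, r, hr, t, ht, hx, ext n _ _ ?_⟩
    rw [map_mul, mul_assoc, hφ n t ht, hφ n r hr, e]
  · rintro ⟨n, r, hr, t, ht, hx, e⟩
    obtain ⟨k', hk', e'⟩ := h2 x n r hr t ht hx
    have ht0 : algebraMap A (FractionRing A) t ≠ 0 := by
      rw [map_ne_zero_iff _ (IsFractionRing.injective A _)]
      intro e
      exact hx (e ▸ zero_mem _)
    have : k = k' := by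
      apply ι.injective
      apply mul_right_cancel₀ ht0
      rw [e', ← hφ n t ht, ← hφ n r hr, ← mul_assoc, ← e, map_mul]
    exact this ▸ hk'
  · rw [map_mul, map_pow, hφ _ r hr, ← h3 hg hd g0 n r hr, ← hφ d g hg, smul_eq_mul]
    ring
  · rw [hφ 0 _ (c z).2, h4, pow_zero, mul_one]

end Pool.Agent.Lib.MP_02acd8_ag
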